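import Pool.Agent.KLS.Unif

/-! Final bounds for the complexity of the `k`-level of `n` lines with `s` slopes. -/

namespace Pool.Agent.KLS
open Finset Pool.Agent.KL

theorem FS.mono_s {s s' n m k : ℕ} (h : FS s n m k) (hs : s ≤ s') : FS s' n m k := by
  obtain ⟨ι, κ, fι, fκ, S, sl, c, lo, up, X, Y, hSc, hrest⟩ := h
  exact ⟨ι, κ, fι, fκ, S, sl, c, lo, up, X, Y, hSc.trans hs, hrest⟩

theorem Pf.two_le {S : Finset ℝ} (N : Pf S) (hm : 0 < Fintype.card N.κ) :
    N.K + 2 ≤ Fintype.card N.ι := by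
  classical
  obtain ⟨e⟩ : Nonempty N.κ := Fintype.card_pos_iff.1 hm
  have h3 : Disjoint (univ.filter fun i => N.s i * N.X e + N.c i < N.Y e)
      ({N.lo e, N.up e} : Finset N.ι) := by
    rw [Finset.disjoint_left]
    intro i hi hi'
    have h4 := (Finset.mem_filter.1 hi).2
    rcases Finset.mem_insert.1 hi' with h5 | h5
    · rw [h5, N.hlo e] at h4; exact lt_irrefl _ h4
    · rw [Finset.mem_singleton.1 h5, N.hup e] at h4; exact lt_irrefl _ h4
  have h4 := Finset.card_le_univ ((univ.filter fun i => N.s i * N.X e + N.c i < N.Y e) ∪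
    {N.lo e, N.up e})
  rw [Finset.card_union_of_disjoint h3, N.hK e, Finset.card_pair (N.lo_ne_up e)] at h4
  exact h4

/-- the level of a rich configuration is about the middle level -/
theorem Pf.level_bounds {S : Finset ℝ} (N : Pf S) (hS : S.Nonempty) {s : ℕ} (hs : S.card ≤ s)
    (hs1 : 1 ≤ s) (hm : 0 < Fintype.card N.κ) :
    Fintype.card N.κ ≤ (s - 1) * (N.K + 1) ∧
      Fintype.card N.κ ≤ (s - 1) * (Fintype.card N.ι - (N.K + 1)) := by
  have h2 := N.two_le hm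
  set n := Fintype.card N.ι with hn
  set m := Fintype.card N.κ with hmm
  have key : ∀ a : ℕ, 1 ≤ a → (2 * a - 1) * m ≤
      (s - 1) * (2 * min (a * N.K + (a - 1)) (a * n - 1 - (a * N.K + (a - 1))) + 1) := by
    intro a ha
    obtain ⟨Γ, h3, h4, h5⟩ := ((N.rep hS a ha).mono_s hs).psi
    have e1 : a * N.K + (a - 1) + 1 = a * (N.K + 1) := by
      have : a * (N.K + 1) = a * N.K + a := by ring
      omega
    have e2 : a * (N.K + 1) ≤ a * n := Nat.mul_le_mul_left _ (by omega)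
    have e3 : a * N.K + (a - 1) < a * n := by omega
    have h6 := psi_le_slopes Γ (a * N.K + (a - 1)) (by rw [h3]; exact e3)
    rw [h3] at h6
    refine h5.trans (h6.trans ?_)
    exact Nat.mul_le_mul_right _ (Nat.sub_le_sub_right h4 1)
  constructor
  · by_contra hc
    push Not at hc
    set B := (s - 1) * (N.K + 1) with hB
    have h3 := key (B + 1) (by omega)
    have e1 : (B + 1) * N.K + (B + 1 - 1) + 1 = (B + 1) * (N.K + 1) := by
      have : (B + 1) * (N.K + 1) = (B + 1) * N.K + (B + 1) := by ring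
      omega
    have h4 : (s - 1) * (2 * min ((B + 1) * N.K + (B + 1 - 1))
        ((B + 1) * n - 1 - ((B + 1) * N.K + (B + 1 - 1))) + 1) ≤
        (s - 1) * (2 * ((B + 1) * (N.K + 1))) := by
      refine Nat.mul_le_mul_left _ ?_
      have := min_le_left ((B + 1) * N.K + (B + 1 - 1))
        ((B + 1) * n - 1 - ((B + 1) * N.K + (B + 1 - 1)))
      omega
    have h5 : (s - 1) * (2 * ((B + 1) * (N.K + 1))) = 2 * (B + 1) * B := by rw [hB]; ring
    rw [h5] at h4
    have h6 := h3.trans h4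
    have h7 : (2 * (B + 1) - 1) * (B + 1) ≤ (2 * (B + 1) - 1) * m :=
      Nat.mul_le_mul_left _ (by omega)
    have h8 : 2 * (B + 1) - 1 = 2 * B + 1 := by omega
    rw [h8] at h6 h7
    nlinarith
  · by_contra hc
    push Not at hc
    set D := n - (N.K + 1) with hD
    set B := (s - 1) * D with hB
    have h3 := key (B + s + 1) (by omega)
    set a := B + s + 1 with ha
    have e1 : a * N.K + (a - 1) + 1 = a * (N.K + 1) := by
      have : a * (N.K + 1) = a * N.K + a := by ring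
      omega
    have e2 : a * n = a * (N.K + 1) + a * D := by
      rw [← mul_add]
      congr 1
      omega
    have h4 : (s - 1) * (2 * min (a * N.K + (a - 1)) (a * n - 1 - (a * N.K + (a - 1))) + 1) ≤
        (s - 1) * (2 * (a * D) + 1) := by
      refine Nat.mul_le_mul_left _ ?_
      have := min_le_right (a * N.K + (a - 1)) (a * n - 1 - (a * N.K + (a - 1)))
      omega
    have h5 : (s - 1) * (2 * (a * D) + 1) = 2 * a * B + (s - 1) := by rw [hB]; ring
    rw [h5] at h4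
    have h6 := h3.trans h4
    have h7 : (2 * a - 1) * (B + 1) ≤ (2 * a - 1) * m := Nat.mul_le_mul_left _ (by omega)
    have h8 : (2 * a - 1) * (B + 1) + (B + 1) = 2 * a * B + 2 * a := by
      have : 2 * a - 1 + 1 = 2 * a := by omega
      calc (2 * a - 1) * (B + 1) + (B + 1) = (2 * a - 1 + 1) * (B + 1) := by ring
        _ = 2 * a * B + 2 * a := by rw [this]; ring
    omega

/-- lower half -/
theorem lower_half (s : ℕ) (hs : 2 ≤ s) (ε : ℝ) (hε : 0 < ε) (hε1 : ε ≤ 1) (n k : ℕ)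
    (hnk : 2 * k + 1 ≤ n) (hk : ((s : ℝ) / ε) ^ (60 * Nat.log 2 s) ≤ k + 1) :
    ∃ m, FS s n m k ∧ (1 - ε) * (2 * ((s : ℝ) - 1) * (k + 1)) ≤ m := by
  have hs' : (2 : ℝ) ≤ s := by exact_mod_cast hs
  have hL : 1 ≤ Nat.log 2 s := Nat.log_pos (by norm_num) hs
  set δ := ε / 4 with hδ
  have hδ0 : 0 < δ := by positivity
  have hδ1 : δ ≤ 1 / 4 := by linarith
  obtain ⟨S, N, hS, hSn, hm, hsize, hrich⟩ := exists_pf s hs δ hδ0 (by linarith)
  obtain ⟨hl1, hl2⟩ := N.level_bounds hSn hS (by omega) hm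
  have hK2 := N.two_le hm
  set n0 := Fintype.card N.ι with hn0
  set m0 := Fintype.card N.κ with hm0
  have hn0' : (2 : ℝ) ≤ n0 := by
    have : 2 ≤ n0 := by omega
    exact_mod_cast this
  have hs1 : (0 : ℝ) < (s : ℝ) - 1 := by linarith
  have hsc : ((s - 1 : ℕ) : ℝ) = (s : ℝ) - 1 := by
    rw [Nat.cast_sub (by omega)]; simp
  have hl1' : (m0 : ℝ) ≤ ((s : ℝ) - 1) * (N.K + 1) := by
    have : (m0 : ℝ) ≤ (((s - 1) * (N.K + 1) : ℕ) : ℝ) := by exact_mod_cast hl1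
    push_cast at this
    rw [hsc] at this
    exact this
  have hl2' : (m0 : ℝ) ≤ ((s : ℝ) - 1) * (n0 - (N.K + 1)) := by
    have : (m0 : ℝ) ≤ (((s - 1) * (n0 - (N.K + 1)) : ℕ) : ℝ) := by exact_mod_cast hl2
    rw [Nat.cast_mul, hsc, Nat.cast_sub (by omega)] at this
    push_cast at this
    exact this
  have hA : (1 - δ) * n0 ≤ 2 * ((N.K : ℝ) + 1) := by
    have h1 : ((s : ℝ) - 1) * ((1 - δ) * n0) ≤ ((s : ℝ) - 1) * (2 * ((N.K : ℝ) + 1)) := by
      nlinarith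
    exact le_of_mul_le_mul_left h1 hs1
  have hB : (1 - δ) * n0 ≤ 2 * (n0 - ((N.K : ℝ) + 1)) := by
    have h1 : ((s : ℝ) - 1) * ((1 - δ) * n0) ≤
        ((s : ℝ) - 1) * (2 * (n0 - ((N.K : ℝ) + 1))) := by
      nlinarith
    exact le_of_mul_le_mul_left h1 hs1
  set W := max (N.K + 1) (n0 - (N.K + 1)) with hW
  have hW1 : (W : ℝ) ≤ (1 + δ) * n0 / 2 := by
    rcases max_cases (N.K + 1) (n0 - (N.K + 1)) with ⟨h2, _⟩ | ⟨h2, h3⟩
    · rw [hW, h2]; push_cast; linarith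
    · rw [hW, h2]
      have h4 : N.K + 1 ≤ n0 := by omega
      rw [Nat.cast_sub h4]
      push_cast
      linarith
  have hW0 : 0 < W := by
    rw [hW]; exact lt_of_lt_of_le (Nat.succ_pos _) (le_max_left _ _)
  -- the threshold
  have hthr : 8 + 4 * (n0 : ℝ) ≤ ((k : ℝ) + 1) * δ := by
    set x := (s : ℝ) / ε with hx
    have hx2 : (2 : ℝ) ≤ x := by
      rw [hx, le_div_iff₀ hε]
      nlinarith
    have h1 : (s : ℝ) / δ = 4 * x := by rw [hδ, hx]; field_simp
    have h2 : 4 * x ≤ x ^ 3 := by nlinarith [sq_nonneg (x - 2)]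
    have h3 : (n0 : ℝ) ≤ x ^ (48 * Nat.log 2 s) := by
      refine hsize.trans ?_
      rw [h1]
      refine (pow_le_pow_left₀ (by positivity) h2 _).trans ?_
      rw [← pow_mul]
      exact pow_le_pow_right₀ (by linarith) (by omega)
    have h4 : 1 / δ ≤ x ^ 3 := by
      have : 1 / δ ≤ (s : ℝ) / δ := by gcongr; linarith
      linarith [h1]
    have h5 : 8 * (n0 : ℝ) * (1 / δ) ≤ x ^ 3 * x ^ (48 * Nat.log 2 s) * x ^ 3 := by
      have h6 : (8 : ℝ) ≤ x ^ 3 := by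
        have := pow_le_pow_left₀ (by norm_num : (0 : ℝ) ≤ 2) hx2 3
        norm_num at this
        linarith
      exact mul_le_mul (mul_le_mul h6 h3 (by positivity) (by positivity)) h4 (by positivity)
        (by positivity)
    have h7 : x ^ 3 * x ^ (48 * Nat.log 2 s) * x ^ 3 ≤ x ^ (60 * Nat.log 2 s) := by
      rw [← pow_add, ← pow_add]
      exact pow_le_pow_right₀ (by linarith) (by omega)
    have h8 : 8 * (n0 : ℝ) * (1 / δ) ≤ k + 1 := h5.trans (h7.trans hk)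
    rw [mul_one_div, div_le_iff₀ hδ0] at h8
    linarith
  have hk0 : (0 : ℝ) ≤ k := Nat.cast_nonneg _
  have hWk : W ≤ k := by
    have h1 : (W : ℝ) < k + 1 := by nlinarith
    have h2 : W < k + 1 := by exact_mod_cast h1
    omega
  set a := k / W with ha
  have ha1 : 1 ≤ a := (Nat.one_le_div_iff hW0).2 hWk
  have ha2 : a * W ≤ k := Nat.div_mul_le_self _ _
  have ha3 : k < W * (a + 1) := by
    have := Nat.lt_mul_div_succ k hW0
    rwa [← ha] at this
  have hFS' : FS s (a * n0) ((2 * a - 1) * m0) (a * N.K + (a - 1)) :=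
    (N.rep hSn a ha1).mono_s hS
  have e1 : a * N.K + (a - 1) + 1 = a * (N.K + 1) := by
    have : a * (N.K + 1) = a * N.K + a := by ring
    omega
  have e2 : a * (N.K + 1) ≤ a * W := Nat.mul_le_mul_left _ (le_max_left _ _)
  have e3 : a * (n0 - (N.K + 1)) ≤ a * W := Nat.mul_le_mul_left _ (le_max_right _ _)
  have e4 : a * n0 ≤ a * (N.K + 1) + a * (n0 - (N.K + 1)) := by
    rw [← mul_add]
    exact Nat.mul_le_mul_left _ (by omega)
  refine ⟨_, hFS'.extend (by omega) (by omega), ?_⟩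
  have ha1' : (1 : ℝ) ≤ a := by exact_mod_cast ha1
  have c1 : (((2 * a - 1) * m0 : ℕ) : ℝ) = (2 * (a : ℝ) - 1) * m0 := by
    rw [Nat.cast_mul, Nat.cast_sub (by omega)]
    push_cast
    ring
  rw [c1]
  have c2 : (k : ℝ) < W * (a + 1) := by exact_mod_cast ha3
  have c3 : (W : ℝ) * (a + 1) ≤ (1 + δ) * n0 / 2 * (a + 1) :=
    mul_le_mul_of_nonneg_right hW1 (by linarith)
  have c4 : (1 - ε) * (2 * (k + 1)) ≤ (2 * (a : ℝ) - 1) * ((1 - δ) * n0 / 2) := by
    have d2 : (1 - δ) * (k : ℝ) ≤ (1 - δ) * ((1 + δ) * n0 / 2 * (a + 1)) :=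
      mul_le_mul_of_nonneg_left (c2.le.trans c3) (by linarith)
    have d5 : (1 - δ) * n0 * (a : ℝ) * (1 + δ) ≥ 2 * (1 - δ) * k - (1 - δ) * (1 + δ) * n0 := by
      nlinarith
    have d6 : (1 - δ) * n0 * (a : ℝ) ≥ 2 * (1 - 2 * δ) * k - n0 := by
      have h3 : 0 < 1 + δ := by linarith
      by_contra hc
      push Not at hc
      have h4 := mul_lt_mul_of_pos_right hc h3
      nlinarith [mul_nonneg (mul_nonneg hδ0.le hδ0.le) hk0,
        mul_nonneg hδ0.le (by linarith : (0 : ℝ) ≤ n0)]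
    have d7 : (2 * (a : ℝ) - 1) * ((1 - δ) * n0 / 2) ≥ 2 * (1 - 2 * δ) * k - 2 * n0 := by
      nlinarith
    have d8 : (1 - ε) * (2 * ((k : ℝ) + 1)) = (1 - 4 * δ) * (2 * (k + 1)) := by
      rw [hδ]; ring
    nlinarith
  have c5 : (2 * (a : ℝ) - 1) * (((s : ℝ) - 1) * ((1 - δ) * n0 / 2)) ≤ (2 * (a : ℝ) - 1) * m0 := by
    refine mul_le_mul_of_nonneg_left ?_ (by linarith)
    linarith
  calc (1 - ε) * (2 * ((s : ℝ) - 1) * (k + 1))
      = ((s : ℝ) - 1) * ((1 - ε) * (2 * (k + 1))) := by ring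
    _ ≤ ((s : ℝ) - 1) * ((2 * (a : ℝ) - 1) * ((1 - δ) * n0 / 2)) :=
        mul_le_mul_of_nonneg_left c4 hs1.le
    _ = (2 * (a : ℝ) - 1) * (((s : ℝ) - 1) * ((1 - δ) * n0 / 2)) := by ring
    _ ≤ _ := c5

theorem lower_bound (s : ℕ) (hs : 2 ≤ s) (ε : ℝ) (hε : 0 < ε) (hε1 : ε ≤ 1) (n k : ℕ)
    (hkn : k < n) (hk : ((s : ℝ) / ε) ^ (60 * Nat.log 2 s) ≤ (min (k + 1) (n - k) : ℕ)) :
    ∃ Γ : Finset (ℝ × ℝ), Γ.card = n ∧ (Γ.image Prod.fst).card ≤ s ∧
      (1 - ε) * (2 * ((s : ℝ) - 1) * (min (k + 1) (n - k) : ℕ)) ≤ psi Γ k := by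
  by_cases hk2 : 2 * k + 1 ≤ n
  · rw [min_eq_left (by omega)] at hk ⊢
    obtain ⟨m, hm, hm'⟩ := lower_half s hs ε hε hε1 n k hk2 (by push_cast at hk; exact hk)
    obtain ⟨Γ, h1, h2, h3⟩ := hm.psi
    refine ⟨Γ, h1, h2, ?_⟩
    have h4 : (m : ℝ) ≤ psi Γ k := by exact_mod_cast h3
    push_cast
    linarith
  · push Not at hk2
    rw [min_eq_right (by omega)] at hk ⊢
    have h5 : (((n - 1 - k : ℕ) : ℝ) + 1) = ((n - k : ℕ) : ℝ) := by
      have : n - 1 - k + 1 = n - k := by omega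
      exact_mod_cast this
    obtain ⟨m, hm, hm'⟩ := lower_half s hs ε hε hε1 n (n - 1 - k) (by omega) (by rw [h5]; exact hk)
    have h0 : n - 1 - (n - 1 - k) = k := by omega
    have hm2 := hm.reflect
    rw [h0] at hm2
    obtain ⟨Γ, h1, h2, h3⟩ := hm2.psi
    refine ⟨Γ, h1, h2, ?_⟩
    have h4 : (m : ℝ) ≤ psi Γ k := by exact_mod_cast h3
    rw [h5] at hm'
    linarith

end Pool.Agent.KLS
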