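import Pool.Agent.KLS.Main

namespace Pool.Agent.KLS.FewSlopes

open Pool.Agent.KL

/-- `eDir s k n`: the maximum complexity `psi Γ k` of the `k`-level over all sets `Γ` of `n` lines
with at most `s` distinct slopes. -/
noncomputable def eDir (s k n : ℕ) : ℕ :=
  sSup {m | ∃ Γ : Finset (ℝ × ℝ), Γ.card = n ∧ (Γ.image Prod.fst).card ≤ s ∧ psi Γ k = m}

/-- Arrangements with few slopes: the maximum complexity of the `k`-level of `n` lines with at most
`s` distinct slopes is at most `(s - 1) (2 min(k+1, n-k) - 1)`, and this bound is attained up to the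
factor `1 - ε` as soon as `min(k+1, n-k) ≥ (s/ε)^(60 log s)`. -/
theorem few_slopes (s : ℕ) (hs : 2 ≤ s) (n k : ℕ) (hk : k < n) :
    eDir s k n ≤ (s - 1) * (2 * min (k + 1) (n - k) - 1) ∧
    ∀ ε : ℝ, 0 < ε → ε ≤ 1 →
      ((s : ℝ) / ε) ^ (60 * Nat.log 2 s) ≤ (min (k + 1) (n - k) : ℕ) →
      (1 - ε) * (((s - 1) * (2 * min (k + 1) (n - k) - 1) : ℕ) : ℝ) ≤ eDir s k n := by
  have hbd : BddAbove {m | ∃ Γ : Finset (ℝ × ℝ), Γ.card = n ∧
      (Γ.image Prod.fst).card ≤ s ∧ psi Γ k = m} := by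
    refine ⟨n * n, ?_⟩
    rintro m ⟨Γ', h1, -, rfl⟩
    rw [← h1]
    exact psi_le Γ' k
  constructor
  · unfold eDir
    rcases Set.eq_empty_or_nonempty {m | ∃ Γ : Finset (ℝ × ℝ), Γ.card = n ∧
      (Γ.image Prod.fst).card ≤ s ∧ psi Γ k = m} with h1 | h1
    · rw [h1]; simp
    · refine csSup_le h1 ?_
      rintro m ⟨Γ, h2, h3, rfl⟩
      have h4 := Pool.Agent.KLS.psi_le_slopes Γ k (by omega)
      rw [h2] at h4
      refine h4.trans (Nat.mul_le_mul (Nat.sub_le_sub_right h3 1) ?_)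
      omega
  · intro ε hε hε1 h
    obtain ⟨Γ, h1, h2, h3⟩ := Pool.Agent.KLS.lower_bound s hs ε hε hε1 n k hk h
    have h4 : psi Γ k ≤ eDir s k n := le_csSup hbd ⟨Γ, h1, h2, rfl⟩
    have h5 : (psi Γ k : ℝ) ≤ eDir s k n := by exact_mod_cast h4
    refine le_trans ?_ (h3.trans h5)
    refine mul_le_mul_of_nonneg_left ?_ (by linarith)
    have h6 : (s - 1) * (2 * min (k + 1) (n - k) - 1) ≤ (s - 1) * (2 * min (k + 1) (n - k)) :=
      Nat.mul_le_mul_left _ (Nat.sub_le _ _)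
    have h7 : (((s - 1) * (2 * min (k + 1) (n - k) - 1) : ℕ) : ℝ) ≤
        (((s - 1) * (2 * min (k + 1) (n - k)) : ℕ) : ℝ) := by exact_mod_cast h6
    refine h7.trans (le_of_eq ?_)
    rw [Nat.cast_mul, Nat.cast_sub (by omega), Nat.cast_mul]
    push_cast
    ring

end Pool.Agent.KLS.FewSlopes
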