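import Pool.Agent.KL.PartA

/-! From configurations to levels. -/

namespace Pool.Agent.KLS
open Finset Filter Topology Pool.Agent.KL

/-- `FS s n m k`: a family of `n` lines with at most `s` slopes and `m` points, exactly two
of the lines through each, with `k` or `k - 1` lines strictly below each. -/
def FS (s n m k : ℕ) : Prop :=
  ∃ (ι κ : Type) (_ : Fintype ι) (_ : Fintype κ) (S : Finset ℝ) (sl c : ι → ℝ)
    (lo up : κ → ι) (X Y : κ → ℝ),
    S.card ≤ s ∧ S.Nonempty ∧ (∀ i, sl i ∈ S) ∧ Fintype.card ι = n ∧ Fintype.card κ = m ∧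
    (∀ e, sl (lo e) < sl (up e)) ∧
    (∀ e, sl (lo e) * X e + c (lo e) = Y e) ∧
    (∀ e, sl (up e) * X e + c (up e) = Y e) ∧
    (∀ e i, i ≠ lo e → i ≠ up e → sl i * X e + c i ≠ Y e) ∧
    (∀ e, (univ.filter fun i => sl i * X e + c i < Y e).card = k ∨
      (univ.filter fun i => sl i * X e + c i < Y e).card + 1 = k) ∧
    Function.Injective (fun e => (X e, Y e))

theorem FS.psi {s n m k : ℕ} (h : FS s n m k) : ∃ Γ : Finset (ℝ × ℝ), Γ.card = n ∧
    (Γ.image Prod.fst).card ≤ s ∧ m ≤ psi Γ k := by
  classical
  obtain ⟨ι, κ, fι, fκ, S, s', c, lo, up, X, Y, hSc, -, hS, hn, hm, hs, hlo, hup, hne, hK,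
    hinj⟩ := h
  let used : ι → Prop := fun i => ∃ e, i = lo e ∨ i = up e
  -- weights for the unused lines
  let w : ι → ℝ := fun i => if used i then 0 else ((Fintype.equivFin ι i : ℕ) : ℝ) + 1
  have hwpos : ∀ i, ¬ used i → 0 < w i := by
    intro i hi
    simp only [w, if_neg hi]
    positivity
  have hw0 : ∀ i, used i → w i = 0 := by
    intro i hi
    simp only [w, if_pos hi]
  have hwinj : ∀ i j, w i = w j → ¬ used i → ¬ used j → i = j := by
    intro i j hij hi hj
    simp only [w, if_neg hi, if_neg hj] at hij
    have h1 : ((Fintype.equivFin ι i : ℕ) : ℝ) = ((Fintype.equivFin ι j : ℕ) : ℝ) := by linarith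
    have h2 : (Fintype.equivFin ι i : ℕ) = (Fintype.equivFin ι j : ℕ) := by exact_mod_cast h1
    exact (Fintype.equivFin ι).injective (Fin.ext h2)
  have hused : ∀ i j, used i → i ≠ j → s' i = s' j → c i ≠ c j := by
    rintro i j ⟨e, he⟩ hij hsij hcij
    rcases he with he | he
    · by_cases hj : j = up e
      · have := hs e
        rw [← he, ← hj, hsij] at this
        exact lt_irrefl _ this
      · refine hne e j (fun h => hij (he.trans h.symm)) hj ?_
        rw [← hsij, ← hcij, he]
        exact hlo e
    · by_cases hj : j = lo e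
      · have := hs e
        rw [← he, ← hj, hsij] at this
        exact lt_irrefl _ this
      · refine hne e j hj (fun h => hij (he.trans h.symm)) ?_
        rw [← hsij, ← hcij, he]
        exact hup e
  have hE1 : ∀ᶠ r in 𝓝[>] (0 : ℝ), ∀ i j, i ≠ j → s' i = s' j →
      c i + r * w i ≠ c j + r * w j := by
    rw [eventually_all]; intro i
    rw [eventually_all]; intro j
    by_cases hij : i = j
    · exact Eventually.of_forall fun r h => absurd hij h
    by_cases hsij : s' i = s' j
    swap
    · exact Eventually.of_forall fun r _ h => absurd h hsij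
    by_cases hcij : c i = c j
    · have hw : w i ≠ w j := by
        intro hw
        by_cases hi : used i
        · exact hused i j hi hij hsij hcij
        by_cases hj : used j
        · exact hused j i hj (Ne.symm hij) hsij.symm hcij.symm
        exact hij (hwinj i j hw hi hj)
      filter_upwards [self_mem_nhdsWithin] with r hr _ _ h
      rw [hcij] at h
      have : r * (w i - w j) = 0 := by linarith
      rcases mul_eq_zero.1 this with h | h
      · exact (ne_of_gt hr) h
      · exact hw (by linarith)
    · have hcont : ContinuousAt (fun r : ℝ => (c i + r * w i) - (c j + r * w j)) 0 := by fun_prop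
      have hne0 : (fun r : ℝ => (c i + r * w i) - (c j + r * w j)) 0 ≠ 0 := by
        simp only [zero_mul, add_zero]
        exact sub_ne_zero.2 hcij
      filter_upwards [nhdsWithin_le_nhds (hcont.eventually_ne hne0)] with r hr _ _ h
      exact hr (by linarith)
  have hE2 : ∀ᶠ r in 𝓝[>] (0 : ℝ), ∀ e i, i ≠ lo e → i ≠ up e →
      (s' i * X e + (c i + r * w i) ≠ Y e ∧
        (s' i * X e + (c i + r * w i) < Y e ↔ s' i * X e + c i < Y e)) := by
    rw [eventually_all]; intro e
    rw [eventually_all]; intro i
    by_cases h1 : i = lo e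
    · exact Eventually.of_forall fun r h => absurd h1 h
    by_cases h2 : i = up e
    · exact Eventually.of_forall fun r _ h => absurd h2 h
    have hcont : ContinuousAt (fun r : ℝ => s' i * X e + (c i + r * w i)) 0 := by fun_prop
    have h0 : (fun r : ℝ => s' i * X e + (c i + r * w i)) 0 = s' i * X e + c i := by simp
    rcases lt_or_gt_of_ne (hne e i h1 h2) with h | h
    · have h3 : ∀ᶠ r in 𝓝 (0 : ℝ), s' i * X e + (c i + r * w i) < Y e :=
        hcont.eventually_lt continuousAt_const (by simpa using h)
      filter_upwards [nhdsWithin_le_nhds h3] with r hr _ _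
      exact ⟨hr.ne, fun _ => h, fun _ => hr⟩
    · have h3 : ∀ᶠ r in 𝓝 (0 : ℝ), Y e < s' i * X e + (c i + r * w i) :=
        continuousAt_const.eventually_lt hcont (by simpa using h)
      filter_upwards [nhdsWithin_le_nhds h3] with r hr _ _
      exact ⟨hr.ne', fun h4 => absurd h4 (not_lt.2 hr.le), fun h4 => absurd h4 (not_lt.2 h.le)⟩
  obtain ⟨r, hr1, hr2⟩ := (hE1.and hE2).exists
  let f : ι → ℝ × ℝ := fun i => (s' i, c i + r * w i)
  have hf : Function.Injective f := by
    intro i j hij
    by_contra hne'
    have h1 : s' i = s' j := congrArg Prod.fst hij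
    have h2 : c i + r * w i = c j + r * w j := congrArg Prod.snd hij
    exact hr1 i j hne' h1 h2
  let Γ : Finset (ℝ × ℝ) := univ.image f
  have hΓ : Γ.card = n := by
    rw [Finset.card_image_of_injective _ hf, Finset.card_univ, hn]
  have hev : ∀ i x, ev (f i) x = s' i * x + (c i + r * w i) := fun i x => rfl
  have hlev : ∀ e, level Γ (X e, Y e) = (univ.filter fun i => s' i * X e + c i < Y e).card := by
    intro e
    have hwlo : w (lo e) = 0 := hw0 _ ⟨e, Or.inl rfl⟩
    have hwup : w (up e) = 0 := hw0 _ ⟨e, Or.inr rfl⟩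
    unfold level
    have h1 : (Γ.filter fun l => ev l (X e, Y e).1 < (X e, Y e).2) =
        (univ.filter fun i => s' i * X e + c i < Y e).image f := by
      ext l
      simp only [Γ, Finset.mem_filter, Finset.mem_image, Finset.mem_univ, true_and]
      constructor
      · rintro ⟨⟨i, rfl⟩, hi⟩
        refine ⟨i, ?_, rfl⟩
        rw [hev] at hi
        by_cases h1 : i = lo e
        · subst h1; rw [hwlo] at hi; simpa using hi
        by_cases h2 : i = up e
        · subst h2; rw [hwup] at hi; simpa using hi
        exact (hr2 e i h1 h2).2.1 hi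
      · rintro ⟨i, hi, rfl⟩
        refine ⟨⟨i, rfl⟩, ?_⟩
        rw [hev]
        by_cases h1 : i = lo e
        · subst h1; rw [hwlo]; simpa using hi
        by_cases h2 : i = up e
        · subst h2; rw [hwup]; simpa using hi
        exact (hr2 e i h1 h2).2.2 hi
    rw [h1, Finset.card_image_of_injective _ hf]
  have hv : ∀ e, IsVertex Γ k (X e, Y e) := by
    intro e
    have hwlo : w (lo e) = 0 := hw0 _ ⟨e, Or.inl rfl⟩
    have hwup : w (up e) = 0 := hw0 _ ⟨e, Or.inr rfl⟩
    have h := vertex_of_two (Γ := Γ) (l1 := f (lo e)) (l2 := f (up e)) (p := (X e, Y e))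
      (Finset.mem_image_of_mem _ (Finset.mem_univ _))
      (Finset.mem_image_of_mem _ (Finset.mem_univ _)) (hs e)
      (by rw [hev, hwlo]; simpa using hlo e) (by rw [hev, hwup]; simpa using hup e) (by
        intro l hl h1 h2
        obtain ⟨i, -, rfl⟩ := Finset.mem_image.1 hl
        rw [hev]
        exact (hr2 e i (fun h => h1 (by rw [h])) (fun h => h2 (by rw [h]))).1)
    rw [hlev e] at h
    rcases hK e with h1 | h1
    · rw [h1] at h; exact h.1
    · rw [h1] at h; exact h.2
  refine ⟨Γ, hΓ, ?_, ?_⟩
  · refine le_trans (Finset.card_le_card ?_) hSc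
    intro t ht
    obtain ⟨l, hl, rfl⟩ := Finset.mem_image.1 ht
    obtain ⟨i, -, rfl⟩ := Finset.mem_image.1 hl
    exact hS i
  · unfold KL.psi
    have h1 : Set.ncard (Set.range fun e => ((X e, Y e) : ℝ × ℝ)) = m := by
      rw [← Set.image_univ, Set.ncard_image_of_injective _ hinj, Set.ncard_univ,
        Nat.card_eq_fintype_card, hm]
    rw [← h1]
    refine Set.ncard_le_ncard ?_ (vertex_finite Γ k)
    rintro _ ⟨e, rfl⟩
    exact hv e

theorem FS.addAbove {s n m k : ℕ} (h : FS s n m k) : FS s (n + 1) m k := by
  classical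
  obtain ⟨ι, κ, fι, fκ, S, s', c, lo, up, X, Y, hSc, ⟨t, ht⟩, hS, hn, hm, hs, hlo, hup, hne, hK,
    hinj⟩ := h
  obtain ⟨C, hC⟩ := (Set.finite_range fun e => Y e - t * X e).bddAbove
  have hC' : ∀ e, Y e < t * X e + (C + 1) := fun e => by
    have := hC ⟨e, rfl⟩
    simp only at this
    linarith
  refine ⟨Option ι, κ, inferInstance, fκ, S, fun o => o.elim t s', fun o => o.elim (C + 1) c,
    fun e => some (lo e), fun e => some (up e), X, Y, hSc, ⟨t, ht⟩, ?_, ?_, hm, hs, hlo, hup,
    ?_, ?_, hinj⟩
  · rintro (_ | i)
    · exact ht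
    · exact hS i
  · rw [Fintype.card_option, hn]
  · rintro e (_ | i) h1 h2
    · simp only [Option.elim]
      exact (hC' e).ne'
    · exact hne e i (fun h => h1 (by rw [h])) (fun h => h2 (by rw [h]))
  · intro e
    have h0 : (univ.filter fun o : Option ι => (o.elim t s') * X e + (o.elim (C + 1) c) < Y e).card
        = (univ.filter fun i => s' i * X e + c i < Y e).card := by
      rw [Finset.card_filter, Fintype.sum_option]
      have h1 : ¬ ((Option.elim (none : Option ι) t s') * X e +
          (Option.elim (none : Option ι) (C + 1) c) < Y e) := by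
        simp only [Option.elim]
        exact not_lt.2 (hC' e).le
      rw [if_neg h1, zero_add, Finset.card_filter]
      rfl
    rw [h0]
    exact hK e

theorem FS.addBelow {s n m k : ℕ} (h : FS s n m k) : FS s (n + 1) m (k + 1) := by
  classical
  obtain ⟨ι, κ, fι, fκ, S, s', c, lo, up, X, Y, hSc, ⟨t, ht⟩, hS, hn, hm, hs, hlo, hup, hne, hK,
    hinj⟩ := h
  obtain ⟨C, hC⟩ := (Set.finite_range fun e => Y e - t * X e).bddBelow
  have hC' : ∀ e, t * X e + (C - 1) < Y e := fun e => by
    have := hC ⟨e, rfl⟩
    simp only at this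
    linarith
  refine ⟨Option ι, κ, inferInstance, fκ, S, fun o => o.elim t s', fun o => o.elim (C - 1) c,
    fun e => some (lo e), fun e => some (up e), X, Y, hSc, ⟨t, ht⟩, ?_, ?_, hm, hs, hlo, hup,
    ?_, ?_, hinj⟩
  · rintro (_ | i)
    · exact ht
    · exact hS i
  · rw [Fintype.card_option, hn]
  · rintro e (_ | i) h1 h2
    · simp only [Option.elim]
      exact (hC' e).ne
    · exact hne e i (fun h => h1 (by rw [h])) (fun h => h2 (by rw [h]))
  · intro e
    have h0 : (univ.filter fun o : Option ι => (o.elim t s') * X e + (o.elim (C - 1) c) < Y e).card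
        = 1 + (univ.filter fun i => s' i * X e + c i < Y e).card := by
      rw [Finset.card_filter, Fintype.sum_option]
      have h1 : (Option.elim (none : Option ι) t s') * X e +
          (Option.elim (none : Option ι) (C - 1) c) < Y e := by
        simp only [Option.elim]
        exact hC' e
      rw [if_pos h1, Finset.card_filter]
      rfl
    rw [h0]
    rcases hK e with h | h
    · left; omega
    · right; omega

theorem FS.addMany {s n m k : ℕ} (h : FS s n m k) (b b' : ℕ) : FS s (n + b + b') m (k + b) := by
  have h1 : ∀ b, FS s (n + b) m (k + b) := by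
    intro b
    induction b with
    | zero => exact h
    | succ b ih => exact ih.addBelow
  have h2 : ∀ b', FS s (n + b + b') m (k + b) := by
    intro b'
    induction b' with
    | zero => exact h1 b
    | succ b' ih => exact ih.addAbove
  exact h2 b'

theorem FS.extend {s n m k n' k' : ℕ} (h : FS s n m k) (hk : k ≤ k')
    (hn : n + (k' - k) ≤ n') : FS s n' m k' := by
  have h1 := h.addMany (k' - k) (n' - (n + (k' - k)))
  have h2 : n + (k' - k) + (n' - (n + (k' - k))) = n' := by omega
  have h3 : k + (k' - k) = k' := by omega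
  rwa [h2, h3] at h1

theorem FS.reflect {s n m k : ℕ} (h : FS s n m k) : FS s n m (n - 1 - k) := by
  classical
  obtain ⟨ι, κ, fι, fκ, S, s', c, lo, up, X, Y, hSc, hSn, hS, hn, hm, hs, hlo, hup, hne, hK,
    hinj⟩ := h
  refine ⟨ι, κ, fι, fκ, S.image (fun t => - t), fun i => - s' i, fun i => - c i, up, lo, X,
    fun e => - Y e, Finset.card_image_le.trans hSc, hSn.image _,
    fun i => Finset.mem_image_of_mem _ (hS i), hn, hm,
    fun e => neg_lt_neg (hs e), ?_, ?_, ?_, ?_, ?_⟩
  · intro e; have := hup e; simp only; linarith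
  · intro e; have := hlo e; simp only; linarith
  · intro e i h1 h2 h; exact hne e i h2 h1 (by simp only at h; linarith)
  · intro e
    have h1 : lo e ≠ up e := fun h => by have := hs e; rw [h] at this; exact lt_irrefl _ this
    have h2 : (univ : Finset ι) = ((univ.filter fun i => s' i * X e + c i < Y e) ∪
        {lo e, up e}) ∪ (univ.filter fun i => - s' i * X e + - c i < - Y e) := by
      ext i
      simp only [Finset.mem_univ, Finset.mem_union, Finset.mem_filter, true_and,
        Finset.mem_insert, Finset.mem_singleton, true_iff]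
      by_cases h3 : i = lo e
      · exact Or.inl (Or.inr (Or.inl h3))
      by_cases h4 : i = up e
      · exact Or.inl (Or.inr (Or.inr h4))
      rcases lt_or_gt_of_ne (hne e i h3 h4) with h | h
      · exact Or.inl (Or.inl h)
      · exact Or.inr (by linarith)
    have h3 : Disjoint (univ.filter fun i => s' i * X e + c i < Y e) ({lo e, up e} : Finset ι) := by
      rw [Finset.disjoint_left]
      intro i hi hi'
      have h4 := (Finset.mem_filter.1 hi).2
      rcases Finset.mem_insert.1 hi' with h5 | h5
      · rw [h5, hlo e] at h4; exact lt_irrefl _ h4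
      · rw [Finset.mem_singleton.1 h5, hup e] at h4; exact lt_irrefl _ h4
    have h4 : Disjoint ((univ.filter fun i => s' i * X e + c i < Y e) ∪ {lo e, up e})
        (univ.filter fun i => - s' i * X e + - c i < - Y e) := by
      rw [Finset.disjoint_left]
      intro i hi hi'
      have h5 := (Finset.mem_filter.1 hi').2
      rcases Finset.mem_union.1 hi with h6 | h6
      · have := (Finset.mem_filter.1 h6).2; linarith
      · rcases Finset.mem_insert.1 h6 with h7 | h7
        · have := hlo e; rw [h7] at h5; linarith
        · have := hup e; rw [Finset.mem_singleton.1 h7] at h5; linarith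
    have h5 := congrArg Finset.card h2
    rw [Finset.card_union_of_disjoint h4, Finset.card_union_of_disjoint h3, Finset.card_univ, hn,
      Finset.card_pair h1] at h5
    have h6 := hK e
    show (univ.filter fun i => - s' i * X e + - c i < - Y e).card = n - 1 - k ∨
      (univ.filter fun i => - s' i * X e + - c i < - Y e).card + 1 = n - 1 - k
    omega
  · intro e e' h
    apply hinj
    simp only [Prod.mk.injEq, neg_inj] at h ⊢
    exact h

end Pool.Agent.KLS
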