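import Pool.Agent.KL.PartC

/-! Lower bound for the complexity of a level of an arrangement with few slopes:
configurations, and one step which splits some of the gaps between consecutive slopes. -/

namespace Pool.Agent.KLS
open Finset Filter Topology Pool.Agent.KL

/-- Configurations with slopes in `S`: used vertices `e`, exactly two lines
`lo e`, `up e` through each, exactly `K` lines strictly below each. -/
structure Pf (S : Finset ℝ) where
  ι : Type
  κ : Type
  [fι : Fintype ι]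
  [fκ : Fintype κ]
  s : ι → ℝ
  c : ι → ℝ
  lo : κ → ι
  up : κ → ι
  X : κ → ℝ
  Y : κ → ℝ
  K : ℕ
  hS : ∀ i, s i ∈ S
  hlt : ∀ e, s (lo e) < s (up e)
  hlo : ∀ e, s (lo e) * X e + c (lo e) = Y e
  hup : ∀ e, s (up e) * X e + c (up e) = Y e
  hne : ∀ e i, i ≠ lo e → i ≠ up e → s i * X e + c i ≠ Y e
  hK : ∀ e, (univ.filter fun i => s i * X e + c i < Y e).card = K
  inj : Function.Injective (fun e => (X e, Y e))

attribute [instance] Pf.fι Pf.fκ

theorem inj_aux {ι κ : Type} (s c : ι → ℝ) (lo up : κ → ι) (X Y : κ → ℝ)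
    (hlt : ∀ e, s (lo e) < s (up e)) (hlo : ∀ e, s (lo e) * X e + c (lo e) = Y e)
    (hup : ∀ e, s (up e) * X e + c (up e) = Y e)
    (hne : ∀ e i, i ≠ lo e → i ≠ up e → s i * X e + c i ≠ Y e)
    (hlu : ∀ v v', lo v = lo v' → up v = up v' → v = v') :
    Function.Injective (fun e => (X e, Y e)) := by
  intro v v' h
  simp only [Prod.mk.injEq] at h
  obtain ⟨hX, hY⟩ := h
  have a1 := hlo v'
  have a2 := hup v'
  rw [← hX, ← hY] at a1 a2
  have hs := hlt v
  have hs' := hlt v'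
  have b1 : lo v' = lo v ∨ lo v' = up v := by
    by_contra hc
    push Not at hc
    exact hne v _ hc.1 hc.2 a1
  have b2 : up v' = lo v ∨ up v' = up v := by
    by_contra hc
    push Not at hc
    exact hne v _ hc.1 hc.2 a2
  have c1 : lo v' = lo v := by
    rcases b1 with h1 | h1
    · exact h1
    · exfalso
      rcases b2 with h2 | h2
      · rw [h1, h2] at hs'
        exact lt_asymm hs hs'
      · rw [h1, h2] at hs'
        exact lt_irrefl _ hs'
  have c2 : up v' = up v := by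
    rcases b2 with h2 | h2
    · exfalso
      rw [c1, h2] at hs'
      exact lt_irrefl _ hs'
    · exact h2
  exact hlu _ _ c1.symm c2.symm

section basic

variable {S : Finset ℝ} (N : Pf S)

theorem Pf.lo_ne_up (e : N.κ) : N.lo e ≠ N.up e := by
  intro h
  have := N.hlt e
  rw [h] at this
  exact lt_irrefl _ this

theorem Pf.hlu (e e' : N.κ) (h1 : N.lo e = N.lo e') (h2 : N.up e = N.up e') : e = e' := by
  have e1 := N.hlo e
  have e2 := N.hup e
  have e3 := N.hlo e'
  have e4 := N.hup e'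
  rw [← h1] at e3
  rw [← h2] at e4
  have hs := N.hlt e
  have e5 : (N.s (N.up e) - N.s (N.lo e)) * (N.X e' - N.X e) = 0 := by linarith
  have hX : N.X e = N.X e' := by
    rcases mul_eq_zero.1 e5 with h5 | h5
    · exact absurd h5 (sub_pos.2 hs).ne'
    · linarith
  apply N.inj
  simp only [Prod.mk.injEq]
  refine ⟨hX, ?_⟩
  rw [← e1, ← e3, hX]

/-- distinct used vertices have distinct abscissas -/
theorem Pf.hX (e e' : N.κ) (h : e ≠ e') : N.X e ≠ N.X e' := by
  classical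
  have key : ∀ e e' : N.κ, N.X e = N.X e' → ¬ N.Y e < N.Y e' := by
    intro e e' hX hY
    have h1 : (univ.filter fun i => N.s i * N.X e + N.c i < N.Y e) ⊂
        (univ.filter fun i => N.s i * N.X e' + N.c i < N.Y e') := by
      rw [Finset.ssubset_iff_of_subset]
      · refine ⟨N.lo e, ?_, ?_⟩
        · rw [Finset.mem_filter, ← hX, N.hlo e]
          exact ⟨Finset.mem_univ _, hY⟩
        · rw [Finset.mem_filter, N.hlo e]
          exact fun h => lt_irrefl _ h.2
      · intro i hi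
        rw [Finset.mem_filter] at hi ⊢
        rw [← hX]
        exact ⟨hi.1, hi.2.trans hY⟩
    have h2 := Finset.card_lt_card h1
    rw [N.hK, N.hK] at h2
    exact lt_irrefl _ h2
  intro hX
  apply h
  apply N.inj
  simp only [Prod.mk.injEq]
  exact ⟨hX, le_antisymm (not_lt.1 (key _ _ hX.symm)) (not_lt.1 (key _ _ hX))⟩

theorem Pf.mono0 {s0 : ℝ} (hs0 : ∀ i, s0 ≤ N.s i) (e e' : N.κ) (h : N.X e < N.X e') :
    s0 * (N.X e' - N.X e) < N.Y e' - N.Y e := by
  classical
  by_contra hc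
  push Not at hc
  have hsub : (univ.filter fun i => N.s i * N.X e' + N.c i < N.Y e') ⊆
      (univ.filter fun i => N.s i * N.X e + N.c i < N.Y e) := by
    intro i hi
    rw [Finset.mem_filter] at hi ⊢
    refine ⟨hi.1, ?_⟩
    have h1 := mul_le_mul_of_nonneg_right (hs0 i) (sub_pos.2 h).le
    nlinarith [hi.2]
  have heq := Finset.eq_of_subset_of_card_le hsub (by rw [N.hK, N.hK])
  have h2 : N.up e' ∈ (univ.filter fun i => N.s i * N.X e + N.c i < N.Y e) := by
    rw [Finset.mem_filter]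
    refine ⟨Finset.mem_univ _, ?_⟩
    have h3 : s0 < N.s (N.up e') := lt_of_le_of_lt (hs0 _) (N.hlt e')
    have h4 := mul_lt_mul_of_pos_right h3 (sub_pos.2 h)
    have h5 := N.hup e'
    nlinarith
  rw [← heq, Finset.mem_filter, N.hup e'] at h2
  exact lt_irrefl _ h2.2

theorem Pf.mono1 {s1 : ℝ} (hs1 : ∀ i, N.s i ≤ s1) (e e' : N.κ) (h : N.X e < N.X e') :
    N.Y e' - N.Y e < s1 * (N.X e' - N.X e) := by
  classical
  by_contra hc
  push Not at hc
  have hsub : (univ.filter fun i => N.s i * N.X e + N.c i < N.Y e) ⊆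
      (univ.filter fun i => N.s i * N.X e' + N.c i < N.Y e') := by
    intro i hi
    rw [Finset.mem_filter] at hi ⊢
    refine ⟨hi.1, ?_⟩
    have h1 := mul_le_mul_of_nonneg_right (hs1 i) (sub_pos.2 h).le
    nlinarith [hi.2]
  have heq := Finset.eq_of_subset_of_card_le hsub (by rw [N.hK, N.hK])
  have h2 : N.lo e ∈ (univ.filter fun i => N.s i * N.X e' + N.c i < N.Y e') := by
    rw [Finset.mem_filter]
    refine ⟨Finset.mem_univ _, ?_⟩
    have h3 : N.s (N.lo e) < s1 := lt_of_lt_of_le (N.hlt e) (hs1 _)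
    have h4 := mul_lt_mul_of_pos_right h3 (sub_pos.2 h)
    have h5 := N.hlo e
    nlinarith
  rw [← heq, Finset.mem_filter, N.hlo e] at h2
  exact lt_irrefl _ h2.2

end basic

section step

variable {S : Finset ℝ} (N : Pf S) (G : N.κ → Bool) (s0 s1 : ℝ) (a : ℕ) (d : N.κ → ℕ)

/-- slope of the pivot -/
noncomputable def md (e : N.κ) : ℝ := (N.s (N.lo e) + N.s (N.up e)) / 2

/-- vertices to be split -/
abbrev TT := {e : N.κ // G e = true}

/-- other vertices -/
abbrev NT := {e : N.κ // ¬ G e = true}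

/-- new lines -/
abbrev nI := (N.ι × Fin a) ⊕ (TT N G ⊕ (Σ e : N.κ, Fin (d e) × Bool))

/-- new vertices -/
abbrev nK := (NT N G × Fin a) ⊕ ((TT N G × Fin a) ⊕ (TT N G × Fin a))

/-- old vertex near the new one -/
def base : nK N G a → N.κ
  | Sum.inl (e, _) => e.1
  | Sum.inr (Sum.inl (e, _)) => e.1
  | Sum.inr (Sum.inr (e, _)) => e.1

/-- offset of the abscissa -/
noncomputable def xi : nK N G a → ℝ
  | Sum.inl (e, l) => 2 * zz a l / (N.s (N.up e.1) - N.s (N.lo e.1))
  | Sum.inr (Sum.inl (e, l)) => (2 * zz a l - 1) / (N.s (N.up e.1) - N.s (N.lo e.1))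
  | Sum.inr (Sum.inr (e, l)) => (1 - 2 * zz a l) / (N.s (N.up e.1) - N.s (N.lo e.1))

/-- offset of the ordinate -/
noncomputable def eta : nK N G a → ℝ
  | Sum.inl (e, l) => N.s (N.lo e.1) * xi N G a (Sum.inl (e, l)) + zz a l
  | Sum.inr v => md N (base N G a (Sum.inr v)) * xi N G a (Sum.inr v) + 1 / 2

/-- new slopes -/
noncomputable def gs : nI N G a d → ℝ
  | Sum.inl (i, _) => N.s i
  | Sum.inr (Sum.inl e) => md N e.1
  | Sum.inr (Sum.inr ⟨_, _, b⟩) => if b then s1 else s0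

/-- new intercepts -/
noncomputable def gc (r : ℝ) : nI N G a d → ℝ
  | Sum.inl (i, l) => N.c i + r ^ 2 * zz a l
  | Sum.inr (Sum.inl e) => N.Y e.1 + r ^ 2 * (1 / 2) - md N e.1 * N.X e.1
  | Sum.inr (Sum.inr ⟨e, _, b⟩) => N.Y e - r - (if b then s1 else s0) * N.X e

/-- new abscissas -/
noncomputable def gX (r : ℝ) (v : nK N G a) : ℝ := N.X (base N G a v) + r ^ 2 * xi N G a v

/-- new ordinates -/
noncomputable def gY (r : ℝ) (v : nK N G a) : ℝ := N.Y (base N G a v) + r ^ 2 * eta N G a v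

/-- position of a line with respect to a vertex -/
noncomputable def gg (r : ℝ) (L : nI N G a d) (v : nK N G a) : ℝ :=
  gs N G s0 s1 a d L * gX N G a r v + gc N G s0 s1 a d r L - gY N G a r v

/-- `r` is small -/
structure Sm (r : ℝ) : Prop where
  pos : 0 < r
  E : ∀ L v, (gg N G s0 s1 a d 0 L v < 0 → gg N G s0 s1 a d r L v < 0) ∧
    (0 < gg N G s0 s1 a d 0 L v → 0 < gg N G s0 s1 a d r L v)
  G : ∀ v (b : Bool), -r + r ^ 2 * ((if b then s1 else s0) * xi N G a v - eta N G a v) < 0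

theorem sgn_ev (f : ℝ → ℝ) (hf : ContinuousAt f 0) : ∀ᶠ r in 𝓝[>] (0 : ℝ),
    (f 0 < 0 → f r < 0) ∧ (0 < f 0 → 0 < f r) := by
  rcases lt_trichotomy (f 0) 0 with h | h | h
  · filter_upwards [nhdsWithin_le_nhds (hf.eventually_lt (continuousAt_const (y := 0)) h)]
      with r hr
    exact ⟨fun _ => hr, fun h' => absurd h' (not_lt.2 h.le)⟩
  · exact Eventually.of_forall fun r => ⟨fun h' => absurd h' (by rw [h]; exact lt_irrefl _),
      fun h' => absurd h' (by rw [h]; exact lt_irrefl _)⟩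
  · filter_upwards [nhdsWithin_le_nhds ((continuousAt_const (y := 0)).eventually_lt hf h)]
      with r hr
    exact ⟨fun h' => absurd h' (not_lt.2 h.le), fun _ => hr⟩

theorem exists_sm : ∃ r, Sm N G s0 s1 a d r := by
  have e1 : ∀ᶠ r in 𝓝[>] (0 : ℝ), ∀ L v,
      (gg N G s0 s1 a d 0 L v < 0 → gg N G s0 s1 a d r L v < 0) ∧
      (0 < gg N G s0 s1 a d 0 L v → 0 < gg N G s0 s1 a d r L v) := by
    simp only [eventually_all]
    intro L v
    refine sgn_ev (fun r => gg N G s0 s1 a d r L v) ?_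
    rcases L with ⟨i, l⟩ | e | ⟨e, j, b⟩ <;> simp only [gg, gs, gc, gX, gY] <;> fun_prop
  have e3 : ∀ᶠ r in 𝓝[>] (0 : ℝ), ∀ v (b : Bool),
      -1 + r * ((if b then s1 else s0) * xi N G a v - eta N G a v) < 0 := by
    simp only [eventually_all]
    intro v b
    have h1 := sgn_ev (fun r => -1 + r * ((if b then s1 else s0) * xi N G a v - eta N G a v))
      (by fun_prop)
    filter_upwards [h1] with r h1
    exact h1.1 (by norm_num)
  obtain ⟨r, ⟨h1, h3⟩, h4⟩ := ((e1.and e3).and self_mem_nhdsWithin).exists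
  have h4' : (0 : ℝ) < r := h4
  refine ⟨r, h4', h1, fun v b => ?_⟩
  have := mul_neg_of_pos_of_neg h4' (h3 v b)
  nlinarith

/-- new lower line -/
def nLo : nK N G a → nI N G a d
  | Sum.inl (e, l) => Sum.inl (N.lo e.1, l)
  | Sum.inr (Sum.inl (e, l)) => Sum.inl (N.lo e.1, l)
  | Sum.inr (Sum.inr (e, _)) => Sum.inr (Sum.inl e)

/-- new upper line -/
def nUp : nK N G a → nI N G a d
  | Sum.inl (e, l) => Sum.inl (N.up e.1, l.rev)
  | Sum.inr (Sum.inl (e, _)) => Sum.inr (Sum.inl e)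
  | Sum.inr (Sum.inr (e, l)) => Sum.inl (N.up e.1, l)

variable {N G s0 s1 a d} {r : ℝ}

theorem zz_rev (l : Fin a) : zz a l.rev = - zz a l := by
  unfold zz
  rw [Fin.val_rev]
  have : ((a - ((l : ℕ) + 1) : ℕ) : ℝ) = (a : ℝ) - ((l : ℕ) + 1) := by
    rw [Nat.cast_sub (by omega)]; push_cast; ring
  rw [this]
  ring

theorem gg_lo_inl (e : NT N G) (l l' : Fin a) :
    gg N G s0 s1 a d r (Sum.inl (N.lo e.1, l')) (Sum.inl (e, l)) =
      r ^ 2 * (zz a l' - zz a l) := by
  have h := N.hlo e.1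
  simp only [gg, gs, gc, gX, gY, base, eta]
  linear_combination h

theorem gg_up_inl (e : NT N G) (l l' : Fin a) :
    gg N G s0 s1 a d r (Sum.inl (N.up e.1, l')) (Sum.inl (e, l)) =
      r ^ 2 * (zz a l' - zz a l.rev) := by
  have h := N.hup e.1
  have h2 : N.s (N.up e.1) - N.s (N.lo e.1) ≠ 0 := (sub_pos.2 (N.hlt e.1)).ne'
  have h3 : (N.s (N.up e.1) - N.s (N.lo e.1)) * xi N G a (Sum.inl (e, l)) = 2 * zz a l := by
    simp only [xi]
    field_simp
  rw [zz_rev]
  simp only [gg, gs, gc, gX, gY, base, eta]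
  linear_combination h + r ^ 2 * h3

theorem gg_lo_T1 (e : TT N G) (l l' : Fin a) :
    gg N G s0 s1 a d r (Sum.inl (N.lo e.1, l')) (Sum.inr (Sum.inl (e, l))) =
      r ^ 2 * (zz a l' - zz a l) := by
  have h := N.hlo e.1
  have h2 : N.s (N.up e.1) - N.s (N.lo e.1) ≠ 0 := (sub_pos.2 (N.hlt e.1)).ne'
  have h3 : (N.s (N.up e.1) - N.s (N.lo e.1)) * xi N G a (Sum.inr (Sum.inl (e, l))) =
      2 * zz a l - 1 := by
    simp only [xi]
    field_simp
  simp only [gg, gs, gc, gX, gY, base, eta, md] at h3 ⊢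
  linear_combination h - r ^ 2 * h3 / 2

theorem gg_up_T1 (e : TT N G) (l l' : Fin a) :
    gg N G s0 s1 a d r (Sum.inl (N.up e.1, l')) (Sum.inr (Sum.inl (e, l))) =
      r ^ 2 * (zz a l' - (1 - zz a l)) := by
  have h := N.hup e.1
  have h2 : N.s (N.up e.1) - N.s (N.lo e.1) ≠ 0 := (sub_pos.2 (N.hlt e.1)).ne'
  have h3 : (N.s (N.up e.1) - N.s (N.lo e.1)) * xi N G a (Sum.inr (Sum.inl (e, l))) =
      2 * zz a l - 1 := by
    simp only [xi]
    field_simp
  simp only [gg, gs, gc, gX, gY, base, eta, md] at h3 ⊢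
  linear_combination h + r ^ 2 * h3 / 2

theorem gg_b_T1 (e : TT N G) (l : Fin a) :
    gg N G s0 s1 a d r (Sum.inr (Sum.inl e)) (Sum.inr (Sum.inl (e, l))) = 0 := by
  simp only [gg, gs, gc, gX, gY, base, eta, xi]
  ring

theorem gg_lo_T2 (e : TT N G) (l l' : Fin a) :
    gg N G s0 s1 a d r (Sum.inl (N.lo e.1, l')) (Sum.inr (Sum.inr (e, l))) =
      r ^ 2 * (zz a l' - (1 - zz a l)) := by
  have h := N.hlo e.1
  have h2 : N.s (N.up e.1) - N.s (N.lo e.1) ≠ 0 := (sub_pos.2 (N.hlt e.1)).ne'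
  have h3 : (N.s (N.up e.1) - N.s (N.lo e.1)) * xi N G a (Sum.inr (Sum.inr (e, l))) =
      1 - 2 * zz a l := by
    simp only [xi]
    field_simp
  simp only [gg, gs, gc, gX, gY, base, eta, md] at h3 ⊢
  linear_combination h - r ^ 2 * h3 / 2

theorem gg_up_T2 (e : TT N G) (l l' : Fin a) :
    gg N G s0 s1 a d r (Sum.inl (N.up e.1, l')) (Sum.inr (Sum.inr (e, l))) =
      r ^ 2 * (zz a l' - zz a l) := by
  have h := N.hup e.1
  have h2 : N.s (N.up e.1) - N.s (N.lo e.1) ≠ 0 := (sub_pos.2 (N.hlt e.1)).ne'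
  have h3 : (N.s (N.up e.1) - N.s (N.lo e.1)) * xi N G a (Sum.inr (Sum.inr (e, l))) =
      1 - 2 * zz a l := by
    simp only [xi]
    field_simp
  simp only [gg, gs, gc, gX, gY, base, eta, md] at h3 ⊢
  linear_combination h + r ^ 2 * h3 / 2

theorem gg_b_T2 (e : TT N G) (l : Fin a) :
    gg N G s0 s1 a d r (Sum.inr (Sum.inl e)) (Sum.inr (Sum.inr (e, l))) = 0 := by
  simp only [gg, gs, gc, gX, gY, base, eta, xi]
  ring

theorem gg_comp (v : nK N G a) (j : Fin (d (base N G a v))) (b : Bool) :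
    gg N G s0 s1 a d r (Sum.inr (Sum.inr ⟨base N G a v, j, b⟩)) v =
      -r + r ^ 2 * ((if b then s1 else s0) * xi N G a v - eta N G a v) := by
  simp only [gg, gs, gc, gX, gY]
  ring

theorem gg0_main (i : N.ι) (l : Fin a) (v : nK N G a) :
    gg N G s0 s1 a d 0 (Sum.inl (i, l)) v =
      N.s i * N.X (base N G a v) + N.c i - N.Y (base N G a v) := by
  simp only [gg, gs, gc, gX, gY]
  ring

theorem gg0_piv (e : TT N G) (v : nK N G a) :
    gg N G s0 s1 a d 0 (Sum.inr (Sum.inl e)) v =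
      N.Y e.1 + md N e.1 * (N.X (base N G a v) - N.X e.1) - N.Y (base N G a v) := by
  simp only [gg, gs, gc, gX, gY]
  ring

theorem gg0_comp (e : N.κ) (j : Fin (d e)) (b : Bool) (v : nK N G a) :
    gg N G s0 s1 a d 0 (Sum.inr (Sum.inr ⟨e, j, b⟩)) v =
      N.Y e + (if b then s1 else s0) * (N.X (base N G a v) - N.X e) - N.Y (base N G a v) := by
  simp only [gg, gs, gc, gX, gY]
  ring

theorem neg_iff' {x : ℝ} (hr : 0 < r) : r ^ 2 * x < 0 ↔ x < 0 := by
  have h : 0 < r ^ 2 := by positivity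
  constructor
  · intro h1
    by_contra hc
    push Not at hc
    have := mul_nonneg h.le hc
    linarith
  · intro h1
    exact mul_neg_of_pos_of_neg h h1

theorem zero_iff' {x : ℝ} (hr : 0 < r) : r ^ 2 * x = 0 ↔ x = 0 := by
  have h : r ^ 2 ≠ 0 := by positivity
  rw [mul_eq_zero, or_iff_right h]

theorem main_other (H : Sm N G s0 s1 a d r) (v : nK N G a) {i : N.ι}
    (h1 : i ≠ N.lo (base N G a v)) (h2 : i ≠ N.up (base N G a v)) (l : Fin a) :
    (gg N G s0 s1 a d r (Sum.inl (i, l)) v < 0 ↔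
      N.s i * N.X (base N G a v) + N.c i < N.Y (base N G a v)) ∧
      gg N G s0 s1 a d r (Sum.inl (i, l)) v ≠ 0 := by
  have h3 := N.hne _ i h1 h2
  have h4 := H.E (Sum.inl (i, l)) v
  rw [gg0_main] at h4
  rcases lt_or_gt_of_ne h3 with h | h
  · have h5 := h4.1 (by linarith)
    exact ⟨⟨fun _ => h, fun _ => h5⟩, h5.ne⟩
  · have h5 := h4.2 (by linarith)
    exact ⟨⟨fun h6 => absurd h6 (not_lt.2 h5.le), fun h6 => absurd h6 (not_lt.2 h.le)⟩, h5.ne'⟩

/-- local count -/
def loc : nK N G a → ℕ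
  | Sum.inl _ => a - 1
  | Sum.inr _ => a

theorem loc_count (H : Sm N G s0 s1 a d r) (v : nK N G a) :
    (∑ l' : Fin a, if gg N G s0 s1 a d r (Sum.inl (N.lo (base N G a v), l')) v < 0
      then 1 else 0) +
    (∑ l' : Fin a, if gg N G s0 s1 a d r (Sum.inl (N.up (base N G a v), l')) v < 0
      then 1 else 0) = loc v := by
  have hr := H.pos
  rcases v with ⟨e, l⟩ | ⟨e, l⟩ | ⟨e, l⟩
  · have h1 : (∑ l' : Fin a, if gg N G s0 s1 a d r (Sum.inl (N.lo e.1, l')) (Sum.inl (e, l)) < 0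
        then 1 else 0) = (l : ℕ) := by
      rw [← Finset.card_filter, ← card_lt l]
      congr 1
      refine Finset.filter_congr fun l' _ => ?_
      rw [gg_lo_inl, neg_iff' hr, sub_neg, zz_lt]
    have h2 : (∑ l' : Fin a, if gg N G s0 s1 a d r (Sum.inl (N.up e.1, l')) (Sum.inl (e, l)) < 0
        then 1 else 0) = (l.rev : ℕ) := by
      rw [← Finset.card_filter, ← card_lt l.rev]
      congr 1
      refine Finset.filter_congr fun l' _ => ?_
      rw [gg_up_inl, neg_iff' hr, sub_neg, zz_lt]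
    refine (congrArg₂ (· + ·) h1 h2).trans ?_
    show (l : ℕ) + (l.rev : ℕ) = a - 1
    rw [Fin.val_rev]
    have := l.2
    omega
  · have h1 : (∑ l' : Fin a, if gg N G s0 s1 a d r (Sum.inl (N.lo e.1, l'))
        (Sum.inr (Sum.inl (e, l))) < 0 then 1 else 0) = (l : ℕ) := by
      rw [← Finset.card_filter, ← card_lt l]
      congr 1
      refine Finset.filter_congr fun l' _ => ?_
      rw [gg_lo_T1, neg_iff' hr, sub_neg, zz_lt]
    have h2 : (∑ l' : Fin a, if gg N G s0 s1 a d r (Sum.inl (N.up e.1, l'))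
        (Sum.inr (Sum.inl (e, l))) < 0 then 1 else 0) = a - (l : ℕ) := by
      rw [← Finset.card_filter, ← card_add_lt l]
      congr 1
      refine Finset.filter_congr fun l' _ => ?_
      rw [gg_up_T1, neg_iff' hr, sub_neg, zz_add_lt]
    refine (congrArg₂ (· + ·) h1 h2).trans ?_
    show (l : ℕ) + (a - (l : ℕ)) = a
    have := l.2
    omega
  · have h1 : (∑ l' : Fin a, if gg N G s0 s1 a d r (Sum.inl (N.lo e.1, l'))
        (Sum.inr (Sum.inr (e, l))) < 0 then 1 else 0) = a - (l : ℕ) := by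
      rw [← Finset.card_filter, ← card_add_lt l]
      congr 1
      refine Finset.filter_congr fun l' _ => ?_
      rw [gg_lo_T2, neg_iff' hr, sub_neg, zz_add_lt]
    have h2 : (∑ l' : Fin a, if gg N G s0 s1 a d r (Sum.inl (N.up e.1, l'))
        (Sum.inr (Sum.inr (e, l))) < 0 then 1 else 0) = (l : ℕ) := by
      rw [← Finset.card_filter, ← card_lt l]
      congr 1
      refine Finset.filter_congr fun l' _ => ?_
      rw [gg_up_T2, neg_iff' hr, sub_neg, zz_lt]
    refine (congrArg₂ (· + ·) h1 h2).trans ?_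
    show (a - (l : ℕ)) + (l : ℕ) = a
    have := l.2
    omega

theorem sum_main (H : Sm N G s0 s1 a d r) (v : nK N G a) :
    (∑ p : N.ι × Fin a, if gg N G s0 s1 a d r (Sum.inl p) v < 0 then 1 else 0) =
      a * N.K + loc v := by
  classical
  rw [Fintype.sum_prod_type]
  set e := base N G a v with he
  have h1 : ∀ i : N.ι, (∑ l' : Fin a, if gg N G s0 s1 a d r (Sum.inl (i, l')) v < 0
      then 1 else 0) =
      a * (if N.s i * N.X e + N.c i < N.Y e then 1 else 0) +
      ((if i = N.lo e then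
        (∑ l' : Fin a, if gg N G s0 s1 a d r (Sum.inl (N.lo e, l')) v < 0 then 1 else 0)
        else 0) +
      (if i = N.up e then
        (∑ l' : Fin a, if gg N G s0 s1 a d r (Sum.inl (N.up e, l')) v < 0 then 1 else 0)
        else 0)) := by
    intro i
    by_cases hlo : i = N.lo e
    · have h2 : i ≠ N.up e := fun h => N.lo_ne_up e (hlo.symm.trans h)
      rw [if_pos hlo, if_neg h2, hlo, if_neg (by rw [N.hlo e]; exact lt_irrefl _)]
      simp
    by_cases hup : i = N.up e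
    · rw [if_neg hlo, if_pos hup, hup, if_neg (by rw [N.hup e]; exact lt_irrefl _)]
      simp
    rw [if_neg hlo, if_neg hup]
    have h2 : ∀ l' : Fin a, (if gg N G s0 s1 a d r (Sum.inl (i, l')) v < 0 then 1 else 0) =
        (if N.s i * N.X e + N.c i < N.Y e then 1 else 0) := by
      intro l'
      simp only [(main_other H v hlo hup l').1, he]
    simp only [h2, Finset.sum_const, Finset.card_univ, Fintype.card_fin, smul_eq_mul, add_zero]
  rw [Finset.sum_congr rfl fun i _ => h1 i, Finset.sum_add_distrib, ← Finset.mul_sum,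
    ← Finset.card_filter, N.hK e, Finset.sum_add_distrib, Finset.sum_ite_eq' univ (N.lo e),
    Finset.sum_ite_eq' univ (N.up e), if_pos (Finset.mem_univ _), if_pos (Finset.mem_univ _),
    he, loc_count H v]

/-- number of pivots below `e` -/
noncomputable def Bc (N : Pf S) (G : N.κ → Bool) (e : N.κ) : ℕ :=
  (univ.filter fun e' : TT N G => N.Y e'.1 + md N e'.1 * (N.X e - N.X e'.1) < N.Y e).card

theorem gg_piv (hg : ∀ e e' : N.κ, G e' = true → e ≠ e' →
      N.Y e' + md N e' * (N.X e - N.X e') ≠ N.Y e)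
    (H : Sm N G s0 s1 a d r) (v : nK N G a) (e' : TT N G) :
    (gg N G s0 s1 a d r (Sum.inr (Sum.inl e')) v < 0 ↔
      N.Y e'.1 + md N e'.1 * (N.X (base N G a v) - N.X e'.1) < N.Y (base N G a v)) ∧
    (e'.1 ≠ base N G a v → gg N G s0 s1 a d r (Sum.inr (Sum.inl e')) v ≠ 0) := by
  by_cases he : e'.1 = base N G a v
  · constructor
    · have h1 : gg N G s0 s1 a d r (Sum.inr (Sum.inl e')) v = 0 := by
        rcases v with ⟨e, l⟩ | ⟨e, l⟩ | ⟨e, l⟩
        · exact absurd (he ▸ e'.2 : G (base N G a (Sum.inl (e, l))) = true) e.2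
        · have : e' = e := Subtype.ext he
          rw [this]; exact gg_b_T1 e l
        · have : e' = e := Subtype.ext he
          rw [this]; exact gg_b_T2 e l
      rw [h1, he]
      simp
    · intro h; exact absurd he h
  · have h3 := hg _ _ e'.2 (Ne.symm he)
    have h4 := H.E (Sum.inr (Sum.inl e')) v
    rw [gg0_piv] at h4
    rcases lt_or_gt_of_ne h3 with h | h
    · have h5 := h4.1 (by linarith)
      exact ⟨⟨fun _ => h, fun _ => h5⟩, fun _ => h5.ne⟩
    · have h5 := h4.2 (by linarith)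
      exact ⟨⟨fun h6 => absurd h6 (not_lt.2 h5.le), fun h6 => absurd h6 (not_lt.2 h.le)⟩,
        fun _ => h5.ne'⟩

theorem sum_piv (hg : ∀ e e' : N.κ, G e' = true → e ≠ e' →
      N.Y e' + md N e' * (N.X e - N.X e') ≠ N.Y e)
    (H : Sm N G s0 s1 a d r) (v : nK N G a) :
    (∑ e' : TT N G, if gg N G s0 s1 a d r (Sum.inr (Sum.inl e')) v < 0 then 1 else 0) =
      Bc N G (base N G a v) := by
  unfold Bc
  rw [← Finset.card_filter]
  congr 1
  refine Finset.filter_congr fun e' _ => ?_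
  exact (gg_piv hg H v e').1

open Classical in
theorem gg_comp_sign (hs0 : ∀ i, s0 ≤ N.s i) (hs1 : ∀ i, N.s i ≤ s1)
    (H : Sm N G s0 s1 a d r) (v : nK N G a) (e : N.κ) (j : Fin (d e)) :
    (gg N G s0 s1 a d r (Sum.inr (Sum.inr ⟨e, j, true⟩)) v ≠ 0 ∧
      gg N G s0 s1 a d r (Sum.inr (Sum.inr ⟨e, j, false⟩)) v ≠ 0) ∧
    ((if gg N G s0 s1 a d r (Sum.inr (Sum.inr ⟨e, j, true⟩)) v < 0 then 1 else 0) +
      (if gg N G s0 s1 a d r (Sum.inr (Sum.inr ⟨e, j, false⟩)) v < 0 then 1 else 0) =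
      1 + (if e = base N G a v then 1 else 0)) := by
  classical
  by_cases he : e = base N G a v
  · subst he
    have h1 := gg_comp (s0 := s0) (s1 := s1) (r := r) v j true
    have h2 := gg_comp (s0 := s0) (s1 := s1) (r := r) v j false
    have h3 := H.G v true
    have h4 := H.G v false
    rw [← h1] at h3
    rw [← h2] at h4
    rw [if_pos h3, if_pos h4, if_pos rfl]
    exact ⟨⟨h3.ne, h4.ne⟩, rfl⟩
  · have hX := N.hX _ _ he
    have h1 := H.E (Sum.inr (Sum.inr ⟨e, j, true⟩)) v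
    have h2 := H.E (Sum.inr (Sum.inr ⟨e, j, false⟩)) v
    rw [gg0_comp] at h1 h2
    simp only [if_true, Bool.false_eq_true, if_false] at h1 h2
    rw [if_neg he]
    rcases lt_or_gt_of_ne hX with h | h
    · have m1 := N.mono0 hs0 _ _ h
      have m2 := N.mono1 hs1 _ _ h
      have k1 := h1.2 (by nlinarith)
      have k2 := h2.1 (by nlinarith)
      rw [if_neg (not_lt.2 k1.le), if_pos k2]
      exact ⟨⟨k1.ne', k2.ne⟩, rfl⟩
    · have m1 := N.mono0 hs0 _ _ h
      have m2 := N.mono1 hs1 _ _ h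
      have k1 := h1.1 (by nlinarith)
      have k2 := h2.2 (by nlinarith)
      rw [if_pos k1, if_neg (not_lt.2 k2.le)]
      exact ⟨⟨k1.ne, k2.ne'⟩, rfl⟩

theorem sum_comp (hs0 : ∀ i, s0 ≤ N.s i) (hs1 : ∀ i, N.s i ≤ s1)
    (H : Sm N G s0 s1 a d r) (v : nK N G a) :
    (∑ q : (Σ e : N.κ, Fin (d e) × Bool),
      if gg N G s0 s1 a d r (Sum.inr (Sum.inr q)) v < 0 then 1 else 0) =
      (∑ e, d e) + d (base N G a v) := by
  classical
  rw [Fintype.sum_sigma]
  have h1 : ∀ e : N.κ, (∑ q : Fin (d e) × Bool,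
      if gg N G s0 s1 a d r (Sum.inr (Sum.inr ⟨e, q⟩)) v < 0 then 1 else 0) =
      d e + (if e = base N G a v then d e else 0) := by
    intro e
    rw [Fintype.sum_prod_type]
    have h2 : ∀ j : Fin (d e), (∑ b : Bool,
        if gg N G s0 s1 a d r (Sum.inr (Sum.inr ⟨e, (j, b)⟩)) v < 0 then 1 else 0) =
        1 + (if e = base N G a v then 1 else 0) := by
      intro j
      rw [Fintype.sum_bool]
      exact (gg_comp_sign hs0 hs1 H v e j).2
    rw [Finset.sum_congr rfl fun j _ => h2 j, Finset.sum_const, Finset.card_univ,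
      Fintype.card_fin, smul_eq_mul]
    split_ifs <;> ring
  rw [Finset.sum_congr rfl fun e _ => h1 e, Finset.sum_add_distrib]
  congr 1
  rw [Finset.sum_ite_eq' univ (base N G a v), if_pos (Finset.mem_univ _)]

theorem mul_gX (L : nI N G a d) (v : nK N G a) :
    gs N G s0 s1 a d L * gX N G a r v + gc N G s0 s1 a d r L = gY N G a r v ↔
      gg N G s0 s1 a d r L v = 0 := by
  unfold gg
  constructor <;> intro h <;> linarith

theorem mul_gX_lt (L : nI N G a d) (v : nK N G a) :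
    gs N G s0 s1 a d L * gX N G a r v + gc N G s0 s1 a d r L < gY N G a r v ↔
      gg N G s0 s1 a d r L v < 0 := by
  unfold gg
  constructor <;> intro h <;> linarith

theorem gg_nLo (v : nK N G a) : gg N G s0 s1 a d r (nLo N G a d v) v = 0 := by
  rcases v with ⟨e, l⟩ | ⟨e, l⟩ | ⟨e, l⟩
  · show gg N G s0 s1 a d r (Sum.inl (N.lo e.1, l)) (Sum.inl (e, l)) = 0
    rw [gg_lo_inl]; ring
  · show gg N G s0 s1 a d r (Sum.inl (N.lo e.1, l)) (Sum.inr (Sum.inl (e, l))) = 0
    rw [gg_lo_T1]; ring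
  · exact gg_b_T2 e l

theorem gg_nUp (v : nK N G a) : gg N G s0 s1 a d r (nUp N G a d v) v = 0 := by
  rcases v with ⟨e, l⟩ | ⟨e, l⟩ | ⟨e, l⟩
  · show gg N G s0 s1 a d r (Sum.inl (N.up e.1, l.rev)) (Sum.inl (e, l)) = 0
    rw [gg_up_inl]; ring
  · exact gg_b_T1 e l
  · show gg N G s0 s1 a d r (Sum.inl (N.up e.1, l)) (Sum.inr (Sum.inr (e, l))) = 0
    rw [gg_up_T2]; ring

theorem zz_ne_one_sub (l l' : Fin a) : zz a l' - (1 - zz a l) ≠ 0 := by
  have := zz_add_ne l l'
  intro h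
  exact this (by linarith)

theorem gg_ne (hg : ∀ e e' : N.κ, G e' = true → e ≠ e' →
      N.Y e' + md N e' * (N.X e - N.X e') ≠ N.Y e)
    (hs0 : ∀ i, s0 ≤ N.s i) (hs1 : ∀ i, N.s i ≤ s1)
    (H : Sm N G s0 s1 a d r) (v : nK N G a) (L : nI N G a d) (h1 : L ≠ nLo N G a d v)
    (h2 : L ≠ nUp N G a d v) : gg N G s0 s1 a d r L v ≠ 0 := by
  have hr := H.pos
  rcases L with ⟨i, l'⟩ | e' | ⟨e', j, b⟩
  · by_cases hlo : i = N.lo (base N G a v)
    · subst hlo
      rcases v with ⟨e, l⟩ | ⟨e, l⟩ | ⟨e, l⟩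
      · show gg N G s0 s1 a d r (Sum.inl (N.lo e.1, l')) (Sum.inl (e, l)) ≠ 0
        rw [gg_lo_inl, Ne, zero_iff' hr]
        intro h
        apply h1
        rw [zz_inj (sub_eq_zero.1 h)]
        rfl
      · show gg N G s0 s1 a d r (Sum.inl (N.lo e.1, l')) (Sum.inr (Sum.inl (e, l))) ≠ 0
        rw [gg_lo_T1, Ne, zero_iff' hr]
        intro h
        apply h1
        rw [zz_inj (sub_eq_zero.1 h)]
        rfl
      · show gg N G s0 s1 a d r (Sum.inl (N.lo e.1, l')) (Sum.inr (Sum.inr (e, l))) ≠ 0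
        rw [gg_lo_T2, Ne, zero_iff' hr]
        exact zz_ne_one_sub l l'
    by_cases hup : i = N.up (base N G a v)
    · subst hup
      rcases v with ⟨e, l⟩ | ⟨e, l⟩ | ⟨e, l⟩
      · show gg N G s0 s1 a d r (Sum.inl (N.up e.1, l')) (Sum.inl (e, l)) ≠ 0
        rw [gg_up_inl, Ne, zero_iff' hr]
        intro h
        apply h2
        rw [zz_inj (sub_eq_zero.1 h)]
        rfl
      · show gg N G s0 s1 a d r (Sum.inl (N.up e.1, l')) (Sum.inr (Sum.inl (e, l))) ≠ 0
        rw [gg_up_T1, Ne, zero_iff' hr]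
        exact zz_ne_one_sub l l'
      · show gg N G s0 s1 a d r (Sum.inl (N.up e.1, l')) (Sum.inr (Sum.inr (e, l))) ≠ 0
        rw [gg_up_T2, Ne, zero_iff' hr]
        intro h
        apply h2
        rw [zz_inj (sub_eq_zero.1 h)]
        rfl
    exact (main_other H v hlo hup l').2
  · refine (gg_piv hg H v e').2 ?_
    intro he
    rcases v with ⟨e, l⟩ | ⟨e, l⟩ | ⟨e, l⟩
    · exact absurd (he ▸ e'.2 : G (base N G a (Sum.inl (e, l))) = true) e.2
    · have : e' = e := Subtype.ext he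
      apply h2
      rw [this]; rfl
    · have : e' = e := Subtype.ext he
      apply h1
      rw [this]; rfl
  · cases b
    · exact (gg_comp_sign hs0 hs1 H v e' j).1.2
    · exact (gg_comp_sign hs0 hs1 H v e' j).1.1

theorem sum_all (hg : ∀ e e' : N.κ, G e' = true → e ≠ e' →
      N.Y e' + md N e' * (N.X e - N.X e') ≠ N.Y e)
    (hs0 : ∀ i, s0 ≤ N.s i) (hs1 : ∀ i, N.s i ≤ s1)
    (H : Sm N G s0 s1 a d r) (v : nK N G a) :
    (univ.filter fun L => gs N G s0 s1 a d L * gX N G a r v + gc N G s0 s1 a d r L <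
      gY N G a r v).card =
      a * N.K + loc v + (Bc N G (base N G a v) + ((∑ e, d e) + d (base N G a v))) := by
  rw [Finset.card_filter, Fintype.sum_sum_type, Fintype.sum_sum_type]
  simp only [mul_gX_lt]
  rw [sum_main H v, sum_piv hg H v, sum_comp hs0 hs1 H v]

/-- the correction -/
noncomputable def dd (N : Pf S) (G : N.κ → Bool) (e : N.κ) : ℕ :=
  Fintype.card N.κ + 1 - Bc N G e - (if G e = true then 1 else 0)

theorem Bc_le (e : N.κ) : Bc N G e ≤ Fintype.card N.κ := by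
  unfold Bc
  refine (Finset.card_le_univ _).trans ?_
  exact Fintype.card_subtype_le _

theorem level_eq (ha : 1 ≤ a) (v : nK N G a) :
    a * N.K + loc v + (Bc N G (base N G a v) + ((∑ e, dd N G e) + dd N G (base N G a v))) =
      a * N.K + (a - 1) + (Fintype.card N.κ + 1 + ∑ e, dd N G e) := by
  have h := Bc_le (G := G) (base N G a v)
  rcases v with ⟨e, l⟩ | v
  · have h1 : ¬ G (base N G a (Sum.inl (e, l))) = true := e.2
    have h2 : loc (N := N) (G := G) (Sum.inl (e, l)) = a - 1 := rfl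
    rw [h2]
    unfold dd
    rw [if_neg h1]
    omega
  · have h1 : G (base N G a (Sum.inr v)) = true := by
      rcases v with ⟨e, l⟩ | ⟨e, l⟩
      · exact e.2
      · exact e.2
    have h2 : loc (N := N) (G := G) (Sum.inr v) = a := rfl
    rw [h2]
    have h3 : dd N G (base N G a (Sum.inr v)) + Bc N G (base N G a (Sum.inr v)) + 1 =
        Fintype.card N.κ + 1 := by
      unfold dd
      rw [if_pos h1]
      omega
    omega

theorem nlu (v v' : nK N G a) (h1 : nLo N G a d v = nLo N G a d v')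
    (h2 : nUp N G a d v = nUp N G a d v') : v = v' := by
  rcases v with ⟨e, l⟩ | ⟨e, l⟩ | ⟨e, l⟩ <;> rcases v' with ⟨e', l'⟩ | ⟨e', l'⟩ | ⟨e', l'⟩ <;>
    simp only [nLo, nUp, Sum.inl.injEq, Sum.inr.injEq, Prod.mk.injEq, reduceCtorEq] at h1 h2
  · have he : e.1 = e'.1 := N.hlu _ _ h1.1 h2.1
    rw [Subtype.ext he, h1.2]
  · rw [h2, h1.2]
  · rw [h1, h2.2]

/-- the new configuration -/
noncomputable def newPf (ha : 1 ≤ a) (S' : Finset ℝ) (hSS : S ⊆ S') (h0S : s0 ∈ S)
    (h1S : s1 ∈ S) (hmS : ∀ e, G e = true → md N e ∈ S')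
    (hg : ∀ e e' : N.κ, G e' = true → e ≠ e' → N.Y e' + md N e' * (N.X e - N.X e') ≠ N.Y e)
    (hs0 : ∀ i, s0 ≤ N.s i) (hs1 : ∀ i, N.s i ≤ s1)
    (H : Sm N G s0 s1 a (dd N G) r) : Pf S' where
  ι := nI N G a (dd N G)
  κ := nK N G a
  s := gs N G s0 s1 a (dd N G)
  c := gc N G s0 s1 a (dd N G) r
  lo := nLo N G a (dd N G)
  up := nUp N G a (dd N G)
  X := gX N G a r
  Y := gY N G a r
  K := a * N.K + (a - 1) + (Fintype.card N.κ + 1 + ∑ e, dd N G e)
  hS := by
    rintro (⟨i, l⟩ | e | ⟨e, j, b⟩)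
    · exact hSS (N.hS i)
    · exact hmS e.1 e.2
    · refine hSS ?_
      show (if b then s1 else s0) ∈ S
      split_ifs
      · exact h1S
      · exact h0S
  hlt := by
    rintro (⟨e, l⟩ | ⟨e, l⟩ | ⟨e, l⟩)
    · exact N.hlt e.1
    · have := N.hlt e.1
      show N.s (N.lo e.1) < (N.s (N.lo e.1) + N.s (N.up e.1)) / 2
      linarith
    · have := N.hlt e.1
      show (N.s (N.lo e.1) + N.s (N.up e.1)) / 2 < N.s (N.up e.1)
      linarith
  hlo := fun v => (mul_gX _ v).2 (gg_nLo v)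
  hup := fun v => (mul_gX _ v).2 (gg_nUp v)
  hne := fun v L h1 h2 h => gg_ne hg hs0 hs1 H v L h1 h2 ((mul_gX L v).1 h)
  hK := fun v => (sum_all hg hs0 hs1 H v).trans (level_eq ha v)
  inj := inj_aux (gs N G s0 s1 a (dd N G)) (gc N G s0 s1 a (dd N G) r) (nLo N G a (dd N G))
    (nUp N G a (dd N G)) (gX N G a r) (gY N G a r)
    (by
      rintro (⟨e, l⟩ | ⟨e, l⟩ | ⟨e, l⟩)
      · exact N.hlt e.1
      · have := N.hlt e.1
        show N.s (N.lo e.1) < (N.s (N.lo e.1) + N.s (N.up e.1)) / 2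
        linarith
      · have := N.hlt e.1
        show (N.s (N.lo e.1) + N.s (N.up e.1)) / 2 < N.s (N.up e.1)
        linarith)
    (fun v => (mul_gX _ v).2 (gg_nLo v)) (fun v => (mul_gX _ v).2 (gg_nUp v))
    (fun v L h1 h2 h => gg_ne hg hs0 hs1 H v L h1 h2 ((mul_gX L v).1 h)) nlu

/-- one step of the recursion -/
theorem step (N : Pf S) (G : N.κ → Bool) (S' : Finset ℝ) (hSS : S ⊆ S') (h0S : s0 ∈ S)
    (h1S : s1 ∈ S) (hmS : ∀ e, G e = true → md N e ∈ S')
    (hg : ∀ e e' : N.κ, G e' = true → e ≠ e' → N.Y e' + md N e' * (N.X e - N.X e') ≠ N.Y e)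
    (hs0 : ∀ i, s0 ≤ N.s i) (hs1 : ∀ i, N.s i ≤ s1) (a : ℕ) (ha : 1 ≤ a) :
      ∃ N' : Pf S', Fintype.card N'.ι ≤ a * Fintype.card N.ι + 3 * (Fintype.card N.κ + 1) ^ 2 ∧
        Fintype.card N'.κ =
          a * (Fintype.card N.κ + Fintype.card {e : N.κ // G e = true}) := by
  classical
  obtain ⟨r, H⟩ := exists_sm N G s0 s1 a (dd N G)
  refine ⟨newPf ha S' hSS h0S h1S hmS hg hs0 hs1 H, ?_, ?_⟩
  · show Fintype.card (nI N G a (dd N G)) ≤ _
    rw [Fintype.card_sum, Fintype.card_sum, Fintype.card_prod, Fintype.card_fin,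
      Fintype.card_sigma, mul_comm a]
    simp only [Fintype.card_prod, Fintype.card_fin, Fintype.card_bool]
    have h1 : Fintype.card (TT N G) ≤ Fintype.card N.κ := Fintype.card_subtype_le _
    have h2 : (∑ e : N.κ, dd N G e * 2) ≤ ∑ _e : N.κ, (Fintype.card N.κ + 1) * 2 := by
      refine Finset.sum_le_sum fun e _ => ?_
      have : dd N G e ≤ Fintype.card N.κ + 1 := by
        unfold dd
        omega
      omega
    rw [Finset.sum_const, Finset.card_univ, smul_eq_mul] at h2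
    nlinarith
  · show Fintype.card (nK N G a) = _
    rw [Fintype.card_sum, Fintype.card_sum, Fintype.card_prod, Fintype.card_prod,
      Fintype.card_fin]
    have h2 : Fintype.card (NT N G) + Fintype.card (TT N G) = Fintype.card N.κ := by
      have h3 := Fintype.card_subtype_compl (fun e : N.κ => G e = true)
      have h4 := Fintype.card_subtype_le (fun e : N.κ => G e = true)
      have h5 : Fintype.card (NT N G) =
        Fintype.card N.κ - Fintype.card {e : N.κ // G e = true} := h3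
      have h6 : Fintype.card (TT N G) = Fintype.card {e : N.κ // G e = true} := rfl
      omega
    rw [← h2]
    ring

end step

end Pool.Agent.KLS
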