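import Pool.Agent.KL.PartA

/-! Upper bound for the complexity of the `k`-level of an arrangement with few slopes. -/

namespace Pool.Agent.KLS
open Finset Filter Topology Pool.Agent.KL

/-- number of lines strictly below `(x, y)` -/
noncomputable def nlt (Γ : Finset (ℝ × ℝ)) (x y : ℝ) : ℕ := (Γ.filter fun l => ev l x < y).card

/-- number of lines below or through `(x, y)` -/
noncomputable def nle (Γ : Finset (ℝ × ℝ)) (x y : ℝ) : ℕ := (Γ.filter fun l => ev l x ≤ y).card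

theorem isClosed_nlt (Γ : Finset (ℝ × ℝ)) (k : ℕ) : IsClosed {p : ℝ × ℝ | nlt Γ p.1 p.2 ≤ k} := by
  classical
  rw [← isOpen_compl_iff, isOpen_iff_mem_nhds]
  intro p hp
  have h : ∀ᶠ q : ℝ × ℝ in 𝓝 p, ∀ l ∈ Γ, ev l p.1 < p.2 → ev l q.1 < q.2 := by
    rw [Finset.eventually_all]
    intro l _
    by_cases hl : ev l p.1 < p.2
    · have h1 : ContinuousAt (fun q : ℝ × ℝ => ev l q.1) p := by unfold ev; fun_prop
      have h2 : ContinuousAt (fun q : ℝ × ℝ => q.2) p := by fun_prop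
      filter_upwards [h1.eventually_lt h2 hl] with q hq _
      exact hq
    · exact Eventually.of_forall fun q h => absurd h hl
  filter_upwards [h] with q hq
  simp only [Set.mem_compl_iff, Set.mem_ofPred_eq, not_le] at hp ⊢
  refine lt_of_lt_of_le hp (Finset.card_le_card ?_)
  intro l hl
  rw [Finset.mem_filter] at hl ⊢
  exact ⟨hl.1, hq l hl.1 hl.2⟩

theorem isClosed_nle (Γ : Finset (ℝ × ℝ)) (k : ℕ) : IsClosed {p : ℝ × ℝ | k < nle Γ p.1 p.2} := by
  classical
  rw [← isOpen_compl_iff, isOpen_iff_mem_nhds]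
  intro p hp
  have h : ∀ᶠ q : ℝ × ℝ in 𝓝 p, ∀ l ∈ Γ, ¬ ev l p.1 ≤ p.2 → ¬ ev l q.1 ≤ q.2 := by
    rw [Finset.eventually_all]
    intro l _
    by_cases hl : ev l p.1 ≤ p.2
    · exact Eventually.of_forall fun q h => absurd hl h
    · have h1 : ContinuousAt (fun q : ℝ × ℝ => ev l q.1) p := by unfold ev; fun_prop
      have h2 : ContinuousAt (fun q : ℝ × ℝ => q.2) p := by fun_prop
      filter_upwards [h2.eventually_lt h1 (not_le.1 hl)] with q hq _
      exact not_le.2 hq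
  filter_upwards [h] with q hq
  simp only [Set.mem_compl_iff, Set.mem_ofPred_eq, not_lt] at hp ⊢
  refine le_trans (Finset.card_le_card ?_) hp
  intro l hl
  rw [Finset.mem_filter] at hl ⊢
  refine ⟨hl.1, ?_⟩
  by_contra hc
  exact hq l hl.1 hc hl.2

theorem nle_of_mem {Γ : Finset (ℝ × ℝ)} {k : ℕ} {p : ℝ × ℝ} (hp : p ∈ kLevel Γ k) :
    nlt Γ p.1 p.2 ≤ k ∧ k < nle Γ p.1 p.2 := by
  classical
  constructor
  · have : kLevel Γ k ⊆ {p : ℝ × ℝ | nlt Γ p.1 p.2 ≤ k} := by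
      refine closure_minimal ?_ (isClosed_nlt Γ k)
      rintro p ⟨-, h⟩
      exact h.le
    exact this hp
  · have : kLevel Γ k ⊆ {p : ℝ × ℝ | k < nle Γ p.1 p.2} := by
      refine closure_minimal ?_ (isClosed_nle Γ k)
      rintro p ⟨⟨l, hl, h1⟩, h⟩
      show k < nle Γ p.1 p.2
      rw [← h]
      unfold level nle
      refine Finset.card_lt_card ?_
      rw [Finset.ssubset_iff_of_subset]
      · exact ⟨l, by simp [hl, h1.le], by simp [h1]⟩
      · intro l' hl'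
        rw [Finset.mem_filter] at hl' ⊢
        exact ⟨hl'.1, hl'.2.le⟩
    exact this hp

/-- points of the `k`-level with the same abscissa agree -/
theorem eq_of_mem {Γ : Finset (ℝ × ℝ)} {k : ℕ} {x y y' : ℝ} (hp : (x, y) ∈ kLevel Γ k)
    (hq : (x, y') ∈ kLevel Γ k) : y = y' := by
  classical
  have key : ∀ y y' : ℝ, (x, y) ∈ kLevel Γ k → (x, y') ∈ kLevel Γ k → ¬ y < y' := by
    intro y y' hp hq hlt
    have h1 := (nle_of_mem hp).2
    have h2 := (nle_of_mem hq).1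
    have h3 : nle Γ x y ≤ nlt Γ x y' := by
      refine Finset.card_le_card ?_
      intro l hl
      rw [Finset.mem_filter] at hl ⊢
      exact ⟨hl.1, lt_of_le_of_lt hl.2 hlt⟩
    simp only at h1 h2
    omega
  exact le_antisymm (not_lt.1 (key _ _ hq hp)) (not_lt.1 (key _ _ hp hq))

/-- `x` is generic: no two lines of `Γ` meet above `x` -/
def Gen (Γ : Finset (ℝ × ℝ)) (x : ℝ) : Prop := ∀ l ∈ Γ, ∀ l' ∈ Γ, ev l x = ev l' x → l = l'

theorem nlt_of_gen {Γ : Finset (ℝ × ℝ)} {k : ℕ} {x : ℝ} (hx : Gen Γ x) {l : ℝ × ℝ} (hl : l ∈ Γ)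
    (h : (x, ev l x) ∈ kLevel Γ k) : nlt Γ x (ev l x) = k := by
  classical
  obtain ⟨h1, h2⟩ := nle_of_mem h
  simp only at h1 h2
  have h3 : nle Γ x (ev l x) ≤ nlt Γ x (ev l x) + 1 := by
    unfold nle nlt
    have h4 : (Γ.filter fun l' => ev l' x ≤ ev l x) ⊆
        insert l (Γ.filter fun l' => ev l' x < ev l x) := by
      intro l' hl'
      rw [Finset.mem_filter] at hl'
      rw [Finset.mem_insert, Finset.mem_filter]
      rcases lt_or_eq_of_le hl'.2 with h5 | h5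
      · exact Or.inr ⟨hl'.1, h5⟩
      · exact Or.inl (hx l' hl'.1 l hl h5)
    refine (Finset.card_le_card h4).trans (Finset.card_insert_le _ _)
  omega

/-- the `m` lowest lines at `x` -/
noncomputable def Low (Γ : Finset (ℝ × ℝ)) (m : ℕ) (x : ℝ) : Finset (ℝ × ℝ) := by
  classical exact Γ.filter fun l => nlt Γ x (ev l x) < m

theorem mem_Low {Γ : Finset (ℝ × ℝ)} {m : ℕ} {x : ℝ} {l : ℝ × ℝ} :
    l ∈ Low Γ m x ↔ l ∈ Γ ∧ nlt Γ x (ev l x) < m := by
  unfold Low; rw [Finset.mem_filter]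

theorem Low_card {Γ : Finset (ℝ × ℝ)} {m : ℕ} {x : ℝ} (hx : Gen Γ x) (hm : m ≤ Γ.card) :
    (Low Γ m x).card = m := by
  classical
  have hmono : ∀ l ∈ Γ, ∀ l' ∈ Γ, ev l x < ev l' x → nlt Γ x (ev l x) < nlt Γ x (ev l' x) := by
    intro l hl l' hl' h
    unfold nlt
    refine Finset.card_lt_card ?_
    rw [Finset.ssubset_iff_of_subset]
    · exact ⟨l, by simp [hl, h], by simp⟩
    · intro l'' hl''
      rw [Finset.mem_filter] at hl'' ⊢
      exact ⟨hl''.1, hl''.2.trans h⟩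
  have hinj : Set.InjOn (fun l => nlt Γ x (ev l x)) (Γ : Set (ℝ × ℝ)) := by
    intro l hl l' hl' h
    simp only at h
    rcases lt_trichotomy (ev l x) (ev l' x) with h1 | h1 | h1
    · have := hmono l hl l' hl' h1; omega
    · exact hx l hl l' hl' h1
    · have := hmono l' hl' l hl h1; omega
  have hlt : ∀ l ∈ Γ, nlt Γ x (ev l x) < Γ.card := by
    intro l hl
    unfold nlt
    refine Finset.card_lt_card ?_
    rw [Finset.ssubset_iff_of_subset (Finset.filter_subset _ _)]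
    exact ⟨l, hl, by simp⟩
  have himg : Γ.image (fun l => nlt Γ x (ev l x)) = Finset.range Γ.card := by
    refine Finset.eq_of_subset_of_card_le ?_ ?_
    · intro j hj
      obtain ⟨l, hl, rfl⟩ := Finset.mem_image.1 hj
      exact Finset.mem_range.2 (hlt l hl)
    · rw [Finset.card_range, Finset.card_image_of_injOn hinj]
  have h2 : (Low Γ m x).image (fun l => nlt Γ x (ev l x)) = Finset.range m := by
    ext j
    simp only [Finset.mem_image, mem_Low, Finset.mem_range]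
    constructor
    · rintro ⟨l, ⟨_, h⟩, rfl⟩; exact h
    · intro hj
      have h3 : j ∈ Γ.image (fun l => nlt Γ x (ev l x)) := by
        rw [himg]; exact Finset.mem_range.2 (by omega)
      obtain ⟨l, hl, rfl⟩ := Finset.mem_image.1 h3
      exact ⟨l, ⟨hl, hj⟩, rfl⟩
  have h3 : Set.InjOn (fun l => nlt Γ x (ev l x)) (Low Γ m x : Set (ℝ × ℝ)) := by
    intro l hl l' hl' h
    exact hinj (mem_Low.1 hl).1 (mem_Low.1 hl').1 h
  rw [← Finset.card_image_of_injOn h3, h2, Finset.card_range]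

theorem Low_lt {Γ : Finset (ℝ × ℝ)} {m : ℕ} {x : ℝ} {l l' : ℝ × ℝ} (hl : l ∈ Low Γ m x)
    (hl' : l' ∈ Γ) (h : l' ∉ Low Γ m x) : ev l x < ev l' x := by
  classical
  by_contra hc
  push Not at hc
  apply h
  rw [mem_Low]
  refine ⟨hl', lt_of_le_of_lt ?_ (mem_Low.1 hl).2⟩
  unfold nlt
  refine Finset.card_le_card ?_
  intro l'' hl''
  rw [Finset.mem_filter] at hl'' ⊢
  exact ⟨hl''.1, lt_of_lt_of_le hl''.2 hc⟩

/-- number of lines of slope at least `σ` among the `m` lowest lines at `x` -/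
noncomputable def Pst (Γ : Finset (ℝ × ℝ)) (m : ℕ) (σ x : ℝ) : ℕ :=
  ((Low Γ m x).filter fun l => σ ≤ l.1).card

/-- number of lines of slope less than `σ` among the `m` lowest lines at `x` -/
noncomputable def Nst (Γ : Finset (ℝ × ℝ)) (m : ℕ) (σ x : ℝ) : ℕ :=
  ((Low Γ m x).filter fun l => ¬ σ ≤ l.1).card

theorem Pst_add {Γ : Finset (ℝ × ℝ)} {m : ℕ} {σ x : ℝ} (hx : Gen Γ x) (hm : m ≤ Γ.card) :
    Pst Γ m σ x + Nst Γ m σ x = m := by
  unfold Pst Nst
  rw [Finset.card_filter_add_card_filter_not, Low_card hx hm]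

theorem steep_cases {Γ : Finset (ℝ × ℝ)} {m : ℕ} {σ x x' : ℝ} (hxx : x < x') :
    ((Low Γ m x').filter fun l => σ ≤ l.1) ⊆ ((Low Γ m x).filter fun l => σ ≤ l.1) ∨
    ((Low Γ m x).filter fun l => ¬ σ ≤ l.1) ⊆ ((Low Γ m x').filter fun l => ¬ σ ≤ l.1) := by
  by_contra hc
  push Not at hc
  obtain ⟨h1, h2⟩ := hc
  rw [Finset.not_subset] at h1 h2
  obtain ⟨w, hw, hw'⟩ := h1
  obtain ⟨u, hu, hu'⟩ := h2
  rw [Finset.mem_filter] at hw hw' hu hu'
  have hwx : w ∉ Low Γ m x := fun h => hw' ⟨h, hw.2⟩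
  have hux : u ∉ Low Γ m x' := fun h => hu' ⟨h, hu.2⟩
  have h3 := Low_lt hu.1 (mem_Low.1 hw.1).1 hwx
  have h4 := Low_lt hw.1 (mem_Low.1 hu.1).1 hux
  have h5 : u.1 < w.1 := lt_of_lt_of_le hu.2 hw.2
  unfold ev at h3 h4
  nlinarith

theorem Pst_anti {Γ : Finset (ℝ × ℝ)} {m : ℕ} {σ x x' : ℝ} (hx : Gen Γ x) (hx' : Gen Γ x')
    (hm : m ≤ Γ.card) (hxx : x < x') : Pst Γ m σ x' ≤ Pst Γ m σ x := by
  rcases steep_cases (Γ := Γ) (m := m) (σ := σ) hxx with h | h
  · exact Finset.card_le_card h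
  · have h1 : Nst Γ m σ x ≤ Nst Γ m σ x' := Finset.card_le_card h
    have h2 := Pst_add (σ := σ) hx hm
    have h3 := Pst_add (σ := σ) hx' hm
    omega

theorem Pst_strict {Γ : Finset (ℝ × ℝ)} {m : ℕ} {σ x x' : ℝ} (hx : Gen Γ x) (hx' : Gen Γ x')
    (hm : m ≤ Γ.card) (hxx : x < x') {w u : ℝ × ℝ} (hw : w ∈ Low Γ m x) (hw' : w ∉ Low Γ m x')
    (hws : σ ≤ w.1) (hu : u ∉ Low Γ m x) (hu' : u ∈ Low Γ m x') (hus : u.1 < σ) :
    Pst Γ m σ x' < Pst Γ m σ x := by
  rcases steep_cases (Γ := Γ) (m := m) (σ := σ) hxx with h | h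
  · refine Finset.card_lt_card ((Finset.ssubset_iff_of_subset h).2 ⟨w, ?_, ?_⟩)
    · rw [Finset.mem_filter]; exact ⟨hw, hws⟩
    · rw [Finset.mem_filter]; exact fun h => hw' h.1
  · have h1 : Nst Γ m σ x < Nst Γ m σ x' := by
      refine Finset.card_lt_card ((Finset.ssubset_iff_of_subset h).2 ⟨u, ?_, ?_⟩)
      · rw [Finset.mem_filter]; exact ⟨hu', not_le.2 hus⟩
      · rw [Finset.mem_filter]; exact fun h => hu h.1
    have h2 := Pst_add (σ := σ) hx hm
    have h3 := Pst_add (σ := σ) hx' hm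
    omega

theorem Pst_le {Γ : Finset (ℝ × ℝ)} {m : ℕ} {σ x : ℝ} (hx : Gen Γ x) (hm : m ≤ Γ.card) :
    Pst Γ m σ x ≤ m ∧ Pst Γ m σ x ≤ (Γ.filter fun l => σ ≤ l.1).card ∧
      (Γ.filter fun l => σ ≤ l.1).card ≤ Pst Γ m σ x + (Γ.card - m) := by
  classical
  have h1 := Pst_add (σ := σ) hx hm
  refine ⟨by omega, ?_, ?_⟩
  · refine Finset.card_le_card ?_
    intro l hl
    rw [Finset.mem_filter] at hl ⊢
    exact ⟨(mem_Low.1 hl.1).1, hl.2⟩
  · have h2 : (Γ.filter fun l => σ ≤ l.1) ⊆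
        ((Low Γ m x).filter fun l => σ ≤ l.1) ∪ (Γ \ Low Γ m x) := by
      intro l hl
      rw [Finset.mem_filter] at hl
      rw [Finset.mem_union, Finset.mem_filter, Finset.mem_sdiff]
      by_cases h : l ∈ Low Γ m x
      · exact Or.inl ⟨h, hl.2⟩
      · exact Or.inr ⟨hl.1, h⟩
    have h3 : Low Γ m x ⊆ Γ := fun l hl => (mem_Low.1 hl).1
    have h4 := (Finset.card_le_card h2).trans (Finset.card_union_le _ _)
    rw [Finset.card_sdiff_of_subset h3, Low_card hx hm] at h4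
    exact h4

/-- near `p` the count `Pst` drops -/
def Dr (Γ : Finset (ℝ × ℝ)) (d : ℝ) (m : ℕ) (σ : ℝ) (p : ℝ × ℝ) : Prop :=
  ∃ x x', p.1 - d < x ∧ x < p.1 ∧ p.1 < x' ∧ x' < p.1 + d ∧ Gen Γ x ∧ Gen Γ x' ∧
    Pst Γ m σ x' < Pst Γ m σ x

theorem class_card {Γ : Finset (ℝ × ℝ)} {d : ℝ} {m : ℕ} (σ : ℝ) (hm : m ≤ Γ.card)
    (V : Finset (ℝ × ℝ)) (hV : ∀ p ∈ V, ∀ q ∈ V, p ≠ q → p.1 + 2 * d ≤ q.1 ∨ q.1 + 2 * d ≤ p.1)
    (hD : ∀ p ∈ V, Dr Γ d m σ p) : V.card ≤ min m (Γ.card - m) := by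
  classical
  choose! x x' h1 h2 h3 h4 h5 h6 h7 using hD
  set st := (Γ.filter fun l => σ ≤ l.1).card with hst
  have hinj : Set.InjOn (fun p => Pst Γ m σ (x p)) (V : Set (ℝ × ℝ)) := by
    have key : ∀ p ∈ V, ∀ q ∈ V, p.1 + 2 * d ≤ q.1 → Pst Γ m σ (x q) < Pst Γ m σ (x p) := by
      intro p hp q hq hpq
      have h8 : x' p < x q := by linarith [h4 p hp, h1 q hq]
      exact lt_of_le_of_lt (Pst_anti (h6 p hp) (h5 q hq) hm h8) (h7 p hp)
    intro p hp q hq h
    simp only at h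
    by_contra hne
    rcases hV p hp q hq hne with h8 | h8
    · have := key p hp q hq h8; omega
    · have := key q hq p hp h8; omega
  have hmaps : Set.MapsTo (fun p => Pst Γ m σ (x p)) (V : Set (ℝ × ℝ))
      (Finset.Ioc (st - (Γ.card - m)) (min m st) : Finset ℕ) := by
    intro p hp
    have a1 := Pst_le (σ := σ) (h5 p hp) hm
    have a2 := Pst_le (σ := σ) (h6 p hp) hm
    have a3 := h7 p hp
    simp only [Finset.coe_Ioc, Set.mem_Ioc, le_min_iff]
    refine ⟨?_, a1.1, a1.2.1⟩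
    have := a2.2.2
    omega
  have h8 := Finset.card_le_card_of_injOn _ hmaps hinj
  rw [Nat.card_Ioc] at h8
  have h9 : st ≤ Γ.card := Finset.card_filter_le _ _
  omega

theorem vertex_data {Γ : Finset (ℝ × ℝ)} {k : ℕ} {p : ℝ × ℝ} (hp : IsVertex Γ k p) {d : ℝ}
    (hd : 0 < d) (hg : ∀ x, p.1 - d < x → x < p.1 + d → x ≠ p.1 → Gen Γ x)
    (hk : k < Γ.card) :
    ∃ l ∈ Γ, ∃ l' ∈ Γ, l'.1 < l.1 ∧ ∀ σ, l'.1 < σ → σ ≤ l.1 → Dr Γ d (k + 1) σ p ∨
      Dr Γ d k σ p := by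
  classical
  obtain ⟨l, hl, l', hl', hne, h1, h2, δ, hδ, h3, h4⟩ := hp
  have hs : l.1 ≠ l'.1 := (eq_of_common hne (h1.trans h2.symm)).1
  set ε := min δ d / 2 with hε
  have hε0 : 0 < ε := by positivity
  have hε1 : ε < d := by
    have := min_le_right δ d
    have := min_le_left δ d
    rw [hε]; linarith
  have hε2 : ε < δ := by
    have := min_le_left δ d
    rw [hε]; linarith
  have gx : Gen Γ (p.1 - ε) := hg _ (by linarith) (by linarith) (by linarith)
  have gx' : Gen Γ (p.1 + ε) := hg _ (by linarith) (by linarith) (by linarith)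
  have rx := nlt_of_gen gx hl (h3 _ ⟨by linarith, by linarith⟩)
  have rx' := nlt_of_gen gx' hl' (h4 _ ⟨by linarith, by linarith⟩)
  have hdiff : ∀ x, ev l x - ev l' x = (l.1 - l'.1) * (x - p.1) := by
    intro x
    unfold ev at *
    linarith
  rcases lt_or_gt_of_ne hs with h | h
  · -- convex
    refine ⟨l', hl', l, hl, h, fun σ hσ1 hσ2 => Or.inr
      ⟨p.1 - ε, p.1 + ε, by linarith, by linarith, by linarith, by linarith, gx, gx', ?_⟩⟩
    have e1 : ev l' (p.1 - ε) < ev l (p.1 - ε) := by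
      have := hdiff (p.1 - ε)
      nlinarith
    have e2 : ev l (p.1 + ε) < ev l' (p.1 + ε) := by
      have := hdiff (p.1 + ε)
      nlinarith
    have nl : l ∉ Low Γ k (p.1 - ε) := fun h => by
      have := (mem_Low.1 h).2; omega
    have nl' : l' ∉ Low Γ k (p.1 + ε) := fun h => by
      have := (mem_Low.1 h).2; omega
    have c1 : l' ∈ Low Γ k (p.1 - ε) := by
      rw [mem_Low]
      refine ⟨hl', ?_⟩
      rw [← rx]
      unfold nlt
      refine Finset.card_lt_card ?_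
      rw [Finset.ssubset_iff_of_subset]
      · exact ⟨l', by simp [hl', e1], by simp⟩
      · intro l'' hl''
        rw [Finset.mem_filter] at hl'' ⊢
        exact ⟨hl''.1, hl''.2.trans e1⟩
    have c2 : l ∈ Low Γ k (p.1 + ε) := by
      rw [mem_Low]
      refine ⟨hl, ?_⟩
      rw [← rx']
      unfold nlt
      refine Finset.card_lt_card ?_
      rw [Finset.ssubset_iff_of_subset]
      · exact ⟨l, by simp [hl, e2], by simp⟩
      · intro l'' hl''
        rw [Finset.mem_filter] at hl'' ⊢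
        exact ⟨hl''.1, hl''.2.trans e2⟩
    exact Pst_strict gx gx' (by omega) (by linarith) c1 nl' hσ2 nl c2 hσ1
  · -- concave
    refine ⟨l, hl, l', hl', h, fun σ hσ1 hσ2 => Or.inl
      ⟨p.1 - ε, p.1 + ε, by linarith, by linarith, by linarith, by linarith, gx, gx', ?_⟩⟩
    have e1 : ev l (p.1 - ε) < ev l' (p.1 - ε) := by
      have := hdiff (p.1 - ε)
      nlinarith
    have e2 : ev l' (p.1 + ε) < ev l (p.1 + ε) := by
      have := hdiff (p.1 + ε)
      nlinarith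
    have c1 : l ∈ Low Γ (k + 1) (p.1 - ε) := mem_Low.2 ⟨hl, by omega⟩
    have c2 : l' ∈ Low Γ (k + 1) (p.1 + ε) := mem_Low.2 ⟨hl', by omega⟩
    have nl' : l' ∉ Low Γ (k + 1) (p.1 - ε) := by
      intro h
      have h5 := (mem_Low.1 h).2
      have h6 : nlt Γ (p.1 - ε) (ev l (p.1 - ε)) < nlt Γ (p.1 - ε) (ev l' (p.1 - ε)) := by
        unfold nlt
        refine Finset.card_lt_card ?_
        rw [Finset.ssubset_iff_of_subset]
        · exact ⟨l, by simp [hl, e1], by simp⟩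
        · intro l'' hl''
          rw [Finset.mem_filter] at hl'' ⊢
          exact ⟨hl''.1, hl''.2.trans e1⟩
      omega
    have nl : l ∉ Low Γ (k + 1) (p.1 + ε) := by
      intro h
      have h5 := (mem_Low.1 h).2
      have h6 : nlt Γ (p.1 + ε) (ev l' (p.1 + ε)) < nlt Γ (p.1 + ε) (ev l (p.1 + ε)) := by
        unfold nlt
        refine Finset.card_lt_card ?_
        rw [Finset.ssubset_iff_of_subset]
        · exact ⟨l', by simp [hl', e2], by simp⟩
        · intro l'' hl''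
          rw [Finset.mem_filter] at hl'' ⊢
          exact ⟨hl''.1, hl''.2.trans e2⟩
      omega
    exact Pst_strict gx gx' (by omega) (by linarith) c1 nl hσ2 nl' c2 hσ1

/-- The upper bound. -/
theorem psi_le_slopes (Γ : Finset (ℝ × ℝ)) (k : ℕ) (hk : k < Γ.card) :
    psi Γ k ≤ ((Γ.image Prod.fst).card - 1) * (2 * min k (Γ.card - 1 - k) + 1) := by
  classical
  have hΓ : Γ.Nonempty := Finset.card_pos.1 (by omega)
  have hI : (Γ.image Prod.fst).Nonempty := hΓ.image _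
  set S := Γ.image Prod.fst with hS
  set μ := S.min' hI with hμ
  set C : Finset ℝ := (Γ ×ˢ Γ).image fun q : (ℝ × ℝ) × (ℝ × ℝ) =>
    (q.2.2 - q.1.2) / (q.1.1 - q.2.1) with hC
  have hCmem : ∀ l ∈ Γ, ∀ l' ∈ Γ, l ≠ l' → ∀ x, ev l x = ev l' x → x ∈ C := by
    intro l hl l' hl' hne x hx
    rw [hC, Finset.mem_image]
    exact ⟨(l, l'), by simp [hl, hl'], (eq_of_common hne hx).2.symm⟩
  obtain ⟨d, hd, hd0⟩ : ∃ d : ℝ, (∀ c ∈ C, ∀ c' ∈ C, c < c' → c + 2 * d < c') ∧ 0 < d := by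
    have h : ∀ᶠ d in 𝓝[>] (0 : ℝ), ∀ c ∈ C, ∀ c' ∈ C, c < c' → c + 2 * d < c' := by
      rw [Finset.eventually_all]; intro c _
      rw [Finset.eventually_all]; intro c' _
      by_cases hcc : c < c'
      · have h1 : ContinuousAt (fun d : ℝ => c + 2 * d) 0 := by fun_prop
        have h2 := h1.eventually_lt (continuousAt_const (y := c')) (by simpa using hcc)
        filter_upwards [nhdsWithin_le_nhds h2] with d hd _
        exact hd
      · exact Eventually.of_forall fun d h => absurd h hcc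
    obtain ⟨d, hd, hd0⟩ := (h.and self_mem_nhdsWithin).exists
    exact ⟨d, hd, hd0⟩
  set V : Finset (ℝ × ℝ) := (vertex_finite Γ k).toFinset with hV
  have hVmem : ∀ p, p ∈ V ↔ IsVertex Γ k p := by
    intro p; rw [hV, Set.Finite.mem_toFinset]; rfl
  have hpsi : psi Γ k = V.card := by
    unfold psi
    rw [Set.ncard_eq_toFinset_card _ (vertex_finite Γ k)]
  have hVC : ∀ p ∈ V, p.1 ∈ C := by
    intro p hp
    obtain ⟨l, hl, l', hl', hne, h1, h2, -⟩ := (hVmem p).1 hp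
    exact hCmem l hl l' hl' hne _ (h1.trans h2.symm)
  have hVlev : ∀ p ∈ V, p ∈ kLevel Γ k := by
    intro p hp
    obtain ⟨l, hl, l', hl', hne, h1, h2, δ, hδ, h3, -⟩ := (hVmem p).1 hp
    have := h3 p.1 ⟨by linarith, le_rfl⟩
    rw [h1] at this
    exact this
  have hsep : ∀ p ∈ V, ∀ q ∈ V, p ≠ q → p.1 + 2 * d ≤ q.1 ∨ q.1 + 2 * d ≤ p.1 := by
    intro p hp q hq hne
    rcases lt_trichotomy p.1 q.1 with h | h | h
    · exact Or.inl (hd _ (hVC p hp) _ (hVC q hq) h).le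
    · exfalso
      apply hne
      have h1 := hVlev p hp
      have h2 := hVlev q hq
      have e1 : p = (p.1, p.2) := rfl
      have e2 : q = (p.1, q.2) := by rw [h]
      rw [e1] at h1
      rw [e2] at h2
      have h3 := eq_of_mem h1 h2
      exact Prod.ext h h3
    · exact Or.inr (hd _ (hVC q hq) _ (hVC p hp) h).le
  have hgen : ∀ p ∈ V, ∀ x, p.1 - d < x → x < p.1 + d → x ≠ p.1 → Gen Γ x := by
    intro p hp x h1 h2 h3 l hl l' hl' h
    by_contra hne
    have hx := hCmem l hl l' hl' hne x h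
    rcases lt_or_gt_of_ne h3 with h4 | h4
    · have := hd _ hx _ (hVC p hp) h4; linarith
    · have := hd _ (hVC p hp) _ hx h4; linarith
  have hcover : V ⊆ (S.erase μ).biUnion fun σ =>
      (V.filter fun p => Dr Γ d (k + 1) σ p) ∪ (V.filter fun p => Dr Γ d k σ p) := by
    intro p hp
    obtain ⟨l, hl, l', hl', hll, h⟩ := vertex_data ((hVmem p).1 hp) hd0 (hgen p hp) hk
    rw [Finset.mem_biUnion]
    have hlS : l.1 ∈ S := Finset.mem_image_of_mem _ hl
    have hlS' : l'.1 ∈ S := Finset.mem_image_of_mem _ hl'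
    refine ⟨l.1, ?_, ?_⟩
    · rw [Finset.mem_erase]
      refine ⟨?_, hlS⟩
      have := S.min'_le _ hlS'
      intro h
      rw [hμ] at h
      rw [h] at hll
      linarith
    · rw [Finset.mem_union, Finset.mem_filter, Finset.mem_filter]
      rcases h l.1 hll le_rfl with h | h
      · exact Or.inl ⟨hp, h⟩
      · exact Or.inr ⟨hp, h⟩
  have hb : ∀ σ ∈ S.erase μ, ((V.filter fun p => Dr Γ d (k + 1) σ p) ∪
      (V.filter fun p => Dr Γ d k σ p)).card ≤ 2 * min k (Γ.card - 1 - k) + 1 := by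
    intro σ _
    have h1 := class_card (Γ := Γ) (d := d) (m := k + 1) σ (by omega)
      (V.filter fun p => Dr Γ d (k + 1) σ p)
      (fun p hp q hq => hsep p (Finset.mem_filter.1 hp).1 q (Finset.mem_filter.1 hq).1)
      (fun p hp => (Finset.mem_filter.1 hp).2)
    have h2 := class_card (Γ := Γ) (d := d) (m := k) σ (by omega)
      (V.filter fun p => Dr Γ d k σ p)
      (fun p hp q hq => hsep p (Finset.mem_filter.1 hp).1 q (Finset.mem_filter.1 hq).1)
      (fun p hp => (Finset.mem_filter.1 hp).2)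
    have h3 := Finset.card_union_le (V.filter fun p => Dr Γ d (k + 1) σ p)
      (V.filter fun p => Dr Γ d k σ p)
    omega
  rw [hpsi]
  refine (Finset.card_le_card hcover).trans (Finset.card_biUnion_le.trans ?_)
  refine (Finset.sum_le_card_nsmul _ _ _ hb).trans ?_
  rw [smul_eq_mul, Finset.card_erase_of_mem (S.min'_mem hI)]

end Pool.Agent.KLS
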