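import Pool.Agent.KLS.Rep
import Pool.Agent.KLS.Step2
import Pool.Agent.KLS.Upper

/-! Replication of a configuration and the final bounds. -/

namespace Pool.Agent.KLS
open Finset Filter Topology Pool.Agent.KL

section rep

variable {S : Finset ℝ} (N : Pf S) (a : ℕ)

/-- vertices of the replicated configuration -/
abbrev rK := (N.κ × Fin a) ⊕ (N.κ × Fin (a - 1))

/-- old vertex -/
def rb : rK N a → N.κ
  | Sum.inl p => p.1
  | Sum.inr p => p.1

/-- index of the copy of the lower line -/
def rl : rK N a → Fin a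
  | Sum.inl p => p.2
  | Sum.inr p => ⟨p.2, by have := p.2.2; omega⟩

/-- index of the copy of the upper line -/
def ru : rK N a → Fin a
  | Sum.inl p => p.2.rev
  | Sum.inr p => ⟨a - 2 - p.2, by have := p.2.2; omega⟩

/-- number of copies below -/
def rc : rK N a → ℕ
  | Sum.inl _ => a - 1
  | Sum.inr _ => a - 2

/-- offset of the abscissa -/
noncomputable def rx (v : rK N a) : ℝ :=
  (zz a (rl N a v) - zz a (ru N a v)) / (N.s (N.up (rb N a v)) - N.s (N.lo (rb N a v)))

/-- offset of the ordinate -/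
noncomputable def ry (v : rK N a) : ℝ := N.s (N.lo (rb N a v)) * rx N a v + zz a (rl N a v)

theorem rl_add_ru (v : rK N a) : (rl N a v : ℕ) + (ru N a v : ℕ) = rc N a v := by
  rcases v with ⟨e, l⟩ | ⟨e, l⟩
  · show (l : ℕ) + (l.rev : ℕ) = a - 1
    rw [Fin.val_rev]
    have := l.2
    omega
  · show (l : ℕ) + (a - 2 - (l : ℕ)) = a - 2
    have := l.2
    omega

/-- position of a line with respect to a vertex -/
noncomputable def rg (r : ℝ) (p : N.ι × Fin a) (v : rK N a) : ℝ :=
  N.s p.1 * (N.X (rb N a v) + r * rx N a v) + (N.c p.1 + r * zz a p.2) -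
    (N.Y (rb N a v) + r * ry N a v)

theorem exists_rsm : ∃ r : ℝ, 0 < r ∧ ∀ (p : N.ι × Fin a) (v : rK N a),
    (rg N a 0 p v < 0 → rg N a r p v < 0) ∧ (0 < rg N a 0 p v → 0 < rg N a r p v) := by
  have e1 : ∀ᶠ r in 𝓝[>] (0 : ℝ), ∀ (p : N.ι × Fin a) (v : rK N a),
      (rg N a 0 p v < 0 → rg N a r p v < 0) ∧ (0 < rg N a 0 p v → 0 < rg N a r p v) := by
    simp only [eventually_all]
    intro p v
    exact sgn_ev (fun r => rg N a r p v) (by simp only [rg]; fun_prop)
  obtain ⟨r, h1, h2⟩ := (e1.and self_mem_nhdsWithin).exists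
  exact ⟨r, h2, h1⟩

variable {N a}

theorem rg_lo (r : ℝ) (v : rK N a) (l : Fin a) :
    rg N a r (N.lo (rb N a v), l) v = r * (zz a l - zz a (rl N a v)) := by
  have h := N.hlo (rb N a v)
  simp only [rg, ry]
  linear_combination h

theorem rg_up (r : ℝ) (v : rK N a) (l : Fin a) :
    rg N a r (N.up (rb N a v), l) v = r * (zz a l - zz a (ru N a v)) := by
  have h := N.hup (rb N a v)
  have h2 : N.s (N.up (rb N a v)) - N.s (N.lo (rb N a v)) ≠ 0 :=
    (sub_pos.2 (N.hlt (rb N a v))).ne'
  have h3 : (N.s (N.up (rb N a v)) - N.s (N.lo (rb N a v))) * rx N a v =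
      zz a (rl N a v) - zz a (ru N a v) := by
    simp only [rx]
    field_simp
  simp only [rg, ry]
  linear_combination h + r * h3

theorem rg0 (i : N.ι) (l : Fin a) (v : rK N a) :
    rg N a 0 (i, l) v = N.s i * N.X (rb N a v) + N.c i - N.Y (rb N a v) := by
  simp only [rg]
  ring

theorem rg_neg_iff {r : ℝ} (hr : 0 < r) (l l' : Fin a) :
    r * (zz a l - zz a l') < 0 ↔ l < l' := by
  rw [← zz_lt]
  constructor
  · intro h
    by_contra hc
    push Not at hc
    have := mul_nonneg hr.le (sub_nonneg.2 hc)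
    linarith
  · intro h
    exact mul_neg_of_pos_of_neg hr (by linarith)

theorem rep_level {r : ℝ} (hr : 0 < r)
    (H : ∀ (p : N.ι × Fin a) (v : rK N a),
      (rg N a 0 p v < 0 → rg N a r p v < 0) ∧ (0 < rg N a 0 p v → 0 < rg N a r p v))
    (v : rK N a) : (univ.filter fun p => rg N a r p v < 0).card = a * N.K + rc N a v := by
  classical
  rw [Finset.card_filter, Fintype.sum_prod_type]
  have h1 : ∀ i : N.ι, (∑ l : Fin a, if rg N a r (i, l) v < 0 then 1 else 0) =
      a * (if N.s i * N.X (rb N a v) + N.c i < N.Y (rb N a v) then 1 else 0) +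
      ((if i = N.lo (rb N a v) then (rl N a v : ℕ) else 0) +
      (if i = N.up (rb N a v) then (ru N a v : ℕ) else 0)) := by
    intro i
    by_cases hlo : i = N.lo (rb N a v)
    · have h2 : i ≠ N.up (rb N a v) := fun h => N.lo_ne_up _ (hlo.symm.trans h)
      rw [if_pos hlo, if_neg h2, hlo, if_neg (by rw [N.hlo]; exact lt_irrefl _)]
      rw [← Finset.card_filter]
      have : (univ.filter fun l : Fin a => rg N a r (N.lo (rb N a v), l) v < 0) =
          univ.filter fun l : Fin a => l < rl N a v := by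
        refine Finset.filter_congr fun l _ => ?_
        rw [rg_lo, rg_neg_iff hr]
      rw [this, card_lt]
      simp
    by_cases hup : i = N.up (rb N a v)
    · rw [if_neg hlo, if_pos hup, hup, if_neg (by rw [N.hup]; exact lt_irrefl _)]
      rw [← Finset.card_filter]
      have : (univ.filter fun l : Fin a => rg N a r (N.up (rb N a v), l) v < 0) =
          univ.filter fun l : Fin a => l < ru N a v := by
        refine Finset.filter_congr fun l _ => ?_
        rw [rg_up, rg_neg_iff hr]
      rw [this, card_lt]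
      simp
    rw [if_neg hlo, if_neg hup]
    have h2 : ∀ l : Fin a, (if rg N a r (i, l) v < 0 then 1 else 0) =
        (if N.s i * N.X (rb N a v) + N.c i < N.Y (rb N a v) then 1 else 0) := by
      intro l
      have h3 := H (i, l) v
      rw [rg0] at h3
      rcases lt_or_gt_of_ne (N.hne _ i hlo hup) with h | h
      · rw [if_pos h, if_pos (h3.1 (by linarith))]
      · rw [if_neg (not_lt.2 h.le), if_neg (not_lt.2 (h3.2 (by linarith)).le)]
    simp only [h2, Finset.sum_const, Finset.card_univ, Fintype.card_fin, smul_eq_mul, add_zero]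
  rw [Finset.sum_congr rfl fun i _ => h1 i, Finset.sum_add_distrib, ← Finset.mul_sum,
    ← Finset.card_filter, N.hK, Finset.sum_add_distrib, Finset.sum_ite_eq' univ,
    Finset.sum_ite_eq' univ, if_pos (Finset.mem_univ _), if_pos (Finset.mem_univ _), rl_add_ru]

theorem Pf.rep (N : Pf S) (hS : S.Nonempty) (a : ℕ) (ha : 1 ≤ a) :
    FS S.card (a * Fintype.card N.ι) ((2 * a - 1) * Fintype.card N.κ)
      (a * N.K + (a - 1)) := by
  classical
  obtain ⟨r, hr, H⟩ := exists_rsm N a
  have heq : ∀ (p : N.ι × Fin a) (v : rK N a),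
      N.s p.1 * (N.X (rb N a v) + r * rx N a v) + (N.c p.1 + r * zz a p.2) =
        N.Y (rb N a v) + r * ry N a v ↔ rg N a r p v = 0 := by
    intro p v
    unfold rg
    constructor <;> intro h <;> linarith
  have hlt : ∀ (p : N.ι × Fin a) (v : rK N a),
      N.s p.1 * (N.X (rb N a v) + r * rx N a v) + (N.c p.1 + r * zz a p.2) <
        N.Y (rb N a v) + r * ry N a v ↔ rg N a r p v < 0 := by
    intro p v
    unfold rg
    constructor <;> intro h <;> linarith
  have hlo : ∀ v : rK N a, rg N a r (N.lo (rb N a v), rl N a v) v = 0 := by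
    intro v; rw [rg_lo]; ring
  have hup : ∀ v : rK N a, rg N a r (N.up (rb N a v), ru N a v) v = 0 := by
    intro v; rw [rg_up]; ring
  have hne : ∀ (v : rK N a) (p : N.ι × Fin a), p ≠ (N.lo (rb N a v), rl N a v) →
      p ≠ (N.up (rb N a v), ru N a v) → rg N a r p v ≠ 0 := by
    rintro v ⟨i, l⟩ h1 h2
    by_cases hl : i = N.lo (rb N a v)
    · subst hl
      rw [rg_lo]
      intro h
      rcases mul_eq_zero.1 h with h3 | h3
      · exact hr.ne' h3
      · exact h1 (by rw [zz_inj (sub_eq_zero.1 h3)])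
    by_cases hu : i = N.up (rb N a v)
    · subst hu
      rw [rg_up]
      intro h
      rcases mul_eq_zero.1 h with h3 | h3
      · exact hr.ne' h3
      · exact h2 (by rw [zz_inj (sub_eq_zero.1 h3)])
    have h3 := H (i, l) v
    rw [rg0] at h3
    rcases lt_or_gt_of_ne (N.hne _ i hl hu) with h | h
    · exact (h3.1 (by linarith)).ne
    · exact (h3.2 (by linarith)).ne'
  refine ⟨N.ι × Fin a, rK N a, inferInstance, inferInstance, S, fun p => N.s p.1,
    fun p => N.c p.1 + r * zz a p.2, fun v => (N.lo (rb N a v), rl N a v),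
    fun v => (N.up (rb N a v), ru N a v), fun v => N.X (rb N a v) + r * rx N a v,
    fun v => N.Y (rb N a v) + r * ry N a v, le_rfl, hS, fun p => N.hS p.1, ?_, ?_,
    fun v => N.hlt _, fun v => (heq _ v).2 (hlo v), fun v => (heq _ v).2 (hup v),
    fun v p h1 h2 h => hne v p h1 h2 ((heq p v).1 h), ?_, ?_⟩
  · rw [Fintype.card_prod, Fintype.card_fin, mul_comm]
  · rw [Fintype.card_sum, Fintype.card_prod, Fintype.card_prod, Fintype.card_fin,
      Fintype.card_fin, ← mul_add, mul_comm]
    congr 1
    omega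
  · intro v
    have h1 : (univ.filter fun p : N.ι × Fin a =>
        N.s p.1 * (N.X (rb N a v) + r * rx N a v) + (N.c p.1 + r * zz a p.2) <
          N.Y (rb N a v) + r * ry N a v).card = a * N.K + rc N a v := by
      rw [← rep_level hr H v]
      congr 1
      exact Finset.filter_congr fun p _ => hlt p v
    rw [h1]
    rcases v with ⟨e, l⟩ | ⟨e, l⟩
    · left; rfl
    · right
      show a * N.K + (a - 2) + 1 = a * N.K + (a - 1)
      have := l.2
      omega
  · -- injectivity
    refine inj_aux (fun p : N.ι × Fin a => N.s p.1) (fun p => N.c p.1 + r * zz a p.2)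
      (fun v => (N.lo (rb N a v), rl N a v)) (fun v => (N.up (rb N a v), ru N a v)) _ _
      (fun v => N.hlt _) (fun v => (heq _ v).2 (hlo v)) (fun v => (heq _ v).2 (hup v))
      (fun v p h1 h2 h => hne v p h1 h2 ((heq p v).1 h)) ?_
    intro v v' c1 c2
    have d1 : N.lo (rb N a v) = N.lo (rb N a v') := congrArg Prod.fst c1
    have d2 : N.up (rb N a v) = N.up (rb N a v') := congrArg Prod.fst c2
    have d3 : rl N a v = rl N a v' := congrArg Prod.snd c1
    have d4 : ru N a v = ru N a v' := congrArg Prod.snd c2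
    have hb : rb N a v = rb N a v' := N.hlu _ _ d1 d2
    have f1 := rl_add_ru N a v
    have f2 := rl_add_ru N a v'
    rw [d3, d4] at f1
    rcases v with ⟨e, l⟩ | ⟨e, l⟩ <;> rcases v' with ⟨e', l'⟩ | ⟨e', l'⟩
    · have g1 : e = e' := hb
      have g2 : l = l' := d3
      rw [g1, g2]
    · exfalso
      have g1 : rc N a (Sum.inl (e, l)) = a - 1 := rfl
      have g2 : rc N a (Sum.inr (e', l')) = a - 2 := rfl
      have := l'.2
      omega
    · exfalso
      have g1 : rc N a (Sum.inr (e, l)) = a - 2 := rfl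
      have g2 : rc N a (Sum.inl (e', l')) = a - 1 := rfl
      have := l.2
      omega
    · have g1 : e = e' := hb
      have g2 : (l : ℕ) = (l' : ℕ) := (Fin.ext_iff.1 d3 :)
      rw [g1, Fin.ext g2]

end rep

end Pool.Agent.KLS
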