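import Pool.Agent.KLS.Rep2

/-! Configurations with `s` slopes, `n ≤ (s / δ) ^ (16 log s)` lines and
at least `(1 - δ) (s - 1) n / 2` vertices at one level. -/

namespace Pool.Agent.KLS
open Finset Pool.Agent.KL

/-- some `q` elements carry at least the average -/
theorem exists_heavy {α : Type} [DecidableEq α] (f : α → ℕ) (T : Finset α) :
    ∀ q, q ≤ T.card → ∃ Q ⊆ T, Q.card = q ∧ q * (∑ x ∈ T, f x) ≤ T.card * (∑ x ∈ Q, f x) := by
  induction hn : T.card generalizing T with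
  | zero =>
    intro q hq
    have : q = 0 := by omega
    subst this
    exact ⟨∅, Finset.empty_subset _, rfl, by simp⟩
  | succ M ih =>
    intro q hq
    by_cases hqM : q = M + 1
    · exact ⟨T, le_rfl, by rw [hn, hqM], by rw [hqM]⟩
    have hT : T.Nonempty := Finset.card_pos.1 (by omega)
    obtain ⟨x0, hx0, hmin⟩ := Finset.exists_min_image T f hT
    have hc : (T.erase x0).card = M := by rw [Finset.card_erase_of_mem hx0, hn]; rfl
    obtain ⟨Q, hQ, hQc, hsum⟩ := ih (T.erase x0) hc q (by omega)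
    refine ⟨Q, hQ.trans (Finset.erase_subset _ _), hQc, ?_⟩
    have h1 : ∑ x ∈ T, f x = f x0 + ∑ x ∈ T.erase x0, f x := (Finset.add_sum_erase T f hx0).symm
    have h2 : (M + 1) * f x0 ≤ ∑ x ∈ T, f x := by
      rw [← hn, ← smul_eq_mul]
      exact Finset.card_nsmul_le_sum T f _ (fun x hx => hmin x hx)
    rcases Nat.eq_zero_or_pos M with hM | hM
    · subst hM
      have : q = 0 := by omega
      subst this
      simp
    · -- M * (M+1) * ΣQ ≥ (M+1) q Σ' ≥ q M Σ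
      have h3 : M * (∑ x ∈ T, f x) ≤ (M + 1) * ∑ x ∈ T.erase x0, f x := by
        rw [h1] at h2 ⊢
        nlinarith
      have h4 : M * (q * ∑ x ∈ T, f x) ≤ M * ((M + 1) * ∑ x ∈ Q, f x) := by
        calc M * (q * ∑ x ∈ T, f x) = q * (M * ∑ x ∈ T, f x) := by ring
          _ ≤ q * ((M + 1) * ∑ x ∈ T.erase x0, f x) := Nat.mul_le_mul_left _ h3
          _ = (M + 1) * (q * ∑ x ∈ T.erase x0, f x) := by ring
          _ ≤ (M + 1) * (M * ∑ x ∈ Q, f x) := Nat.mul_le_mul_left _ hsum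
          _ = M * ((M + 1) * ∑ x ∈ Q, f x) := by ring
      exact Nat.le_of_mul_le_mul_left h4 hM

/-- the slopes `0, 1, ..., M` -/
noncomputable def Sl (M : ℕ) : Finset ℝ := (Finset.range (M + 1)).image fun j : ℕ => (j : ℝ)

theorem Sl_card (M : ℕ) : (Sl M).card = M + 1 := by
  unfold Sl
  rw [Finset.card_image_of_injective _ Nat.cast_injective, Finset.card_range]

/-- a Nivasch configuration as a `Pf` -/
noncomputable def toPf {a M : ℕ} (N : NCfg 1 a M) : Pf (Sl M) where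
  ι := N.ι
  κ := N.κ
  s := fun i => (N.τ i : ℝ)
  c := N.c
  lo := N.lo
  up := N.up
  X := N.X
  Y := N.Y
  K := N.K
  hS := fun i => Finset.mem_image_of_mem _ (Finset.mem_range.2 (Nat.lt_succ_of_le (N.hτ i)))
  hlt := fun e => by rw [N.hΔ e]; push_cast; linarith
  hlo := N.hlo
  hup := N.hup
  hne := N.hne
  hK := N.hK
  inj := N.inj

theorem partial_split {a M : ℕ} (N : NCfg 1 a M) (q : ℕ) (hq : q ≤ M) (b : ℕ) (hb : 1 ≤ b) :
    ∃ (S : Finset ℝ) (N' : Pf S), S.card ≤ M + 1 + q ∧ S.Nonempty ∧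
      Fintype.card N'.ι ≤ b * Fintype.card N.ι + 3 * (Fintype.card N.κ + 1) ^ 2 ∧
      b * ((M + q) * Fintype.card N.κ) ≤ M * Fintype.card N'.κ := by
  classical
  obtain ⟨Q, hQ, hQc, hsum⟩ := exists_heavy
    (fun g => (univ.filter fun e : N.κ => N.τ (N.lo e) = g).card) (Finset.range M) q
    (by rw [Finset.card_range]; exact hq)
  rw [Finset.card_range] at hsum
  have hlt : ∀ e : N.κ, N.τ (N.lo e) < M := by
    intro e
    have h1 := N.hΔ e
    have h2 := N.hτ (N.up e)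
    omega
  have htot : ∑ g ∈ Finset.range M, (univ.filter fun e : N.κ => N.τ (N.lo e) = g).card =
      Fintype.card N.κ := by
    rw [← Finset.card_univ]
    exact (Finset.card_eq_sum_card_fiberwise (f := fun e : N.κ => N.τ (N.lo e))
      (t := Finset.range M) (fun e _ => Finset.mem_coe.2 (Finset.mem_range.2 (hlt e)))).symm
  set G : N.κ → Bool := fun e => decide (N.τ (N.lo e) ∈ Q) with hG
  have hGc : Fintype.card {e : N.κ // G e = true} =
      ∑ g ∈ Q, (univ.filter fun e : N.κ => N.τ (N.lo e) = g).card := by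
    rw [Fintype.card_subtype]
    rw [Finset.card_eq_sum_card_fiberwise (f := fun e : N.κ => N.τ (N.lo e)) (t := Q)]
    · refine Finset.sum_congr rfl fun g hg => ?_
      congr 1
      ext e
      simp only [Finset.mem_filter, Finset.mem_univ, true_and, hG, decide_eq_true_eq]
      constructor
      · exact fun h => h.2
      · exact fun h => ⟨by rw [h]; exact hg, h⟩
    · intro e he
      have he' := (Finset.mem_filter.1 (Finset.mem_coe.1 he)).2
      simp only [hG, decide_eq_true_eq] at he'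
      exact he'
  set S' : Finset ℝ := Sl M ∪ Q.image (fun g : ℕ => (g : ℝ) + 1 / 2) with hS'
  have hmd : ∀ e : N.κ, md (toPf N) e = (N.τ (N.lo e) : ℝ) + 1 / 2 := by
    intro e
    show ((N.τ (N.lo e) : ℝ) + (N.τ (N.up e) : ℝ)) / 2 = _
    rw [N.hΔ e]
    push_cast
    ring
  have h0M : (0 : ℝ) ∈ Sl M := Finset.mem_image.2 ⟨0, by simp, by simp⟩
  have hMM : (M : ℝ) ∈ Sl M := Finset.mem_image.2 ⟨M, by simp, rfl⟩
  obtain ⟨N', h1, h2⟩ := step (s0 := 0) (s1 := (M : ℝ)) (toPf N) G S' Finset.subset_union_left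
    h0M hMM (by
      intro e he
      have h1 : md (toPf N) e = (N.τ (N.lo e) : ℝ) + 1 / 2 := hmd e
      rw [h1, hS']
      refine Finset.mem_union_right _ (Finset.mem_image.2 ⟨N.τ (N.lo e), ?_, rfl⟩)
      simpa [hG] using he) (by
      intro e e' _ hne
      have h1 : md (toPf N) e' = (N.τ (N.lo e') : ℝ) + 1 / 2 := hmd e'
      rw [h1]
      have hup : (N.τ (N.up e') : ℝ) = N.τ (N.lo e') + 1 := by
        rw [N.hΔ e']; push_cast; ring
      have hr : (N.Y e' + ((N.τ (N.lo e') : ℝ) + 1 / 2) * (N.X e - N.X e') < N.Y e) ∨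
          (N.Y e < N.Y e' + ((N.τ (N.lo e') : ℝ) + 1 / 2) * (N.X e - N.X e')) := by
        rcases N.robust e' e (Ne.symm hne) with hr | hr
        · exact Or.inl (hr _ (by linarith) (by linarith))
        · exact Or.inr (hr _ (by linarith) (by linarith))
      show N.Y e' + ((N.τ (N.lo e') : ℝ) + 1 / 2) * (N.X e - N.X e') ≠ N.Y e
      rcases hr with hr | hr
      · exact hr.ne
      · exact hr.ne')
    (fun i => by show (0 : ℝ) ≤ (N.τ i : ℝ); positivity)
    (fun i => by show (N.τ i : ℝ) ≤ M; exact_mod_cast N.hτ i) b hb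
  refine ⟨S', N', ?_, ⟨0, Finset.mem_union_left _ h0M⟩, h1, ?_⟩
  · refine (Finset.card_union_le _ _).trans ?_
    rw [Sl_card]
    have : (Q.image (fun g : ℕ => (g : ℝ) + 1 / 2)).card ≤ Q.card := Finset.card_image_le
    omega
  · have h2' : Fintype.card N'.κ = b * (Fintype.card N.κ +
        Fintype.card {e : N.κ // G e = true}) := h2
    rw [h2', hGc]
    have h3 : q * Fintype.card N.κ ≤
        M * ∑ g ∈ Q, (univ.filter fun e : N.κ => N.τ (N.lo e) = g).card := by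
      rw [htot] at hsum
      exact hsum
    calc b * ((M + q) * Fintype.card N.κ)
        = b * (M * Fintype.card N.κ + q * Fintype.card N.κ) := by ring
      _ ≤ b * (M * Fintype.card N.κ +
          M * ∑ g ∈ Q, (univ.filter fun e : N.κ => N.τ (N.lo e) = g).card) :=
        Nat.mul_le_mul_left _ (Nat.add_le_add_left h3 _)
      _ = _ := by ring

/-- two crossing lines -/
noncomputable def pfBase : Pf {0, 1} where
  ι := Bool
  κ := Unit
  s := fun b => if b then 1 else 0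
  c := fun _ => 0
  lo := fun _ => false
  up := fun _ => true
  X := fun _ => 0
  Y := fun _ => 0
  K := 0
  hS := by intro b; cases b <;> simp
  hlt := by intro e; simp
  hlo := by intro e; simp
  hup := by intro e; simp
  hne := by
    intro e i h1 h2
    cases i
    · exact absurd rfl h1
    · exact absurd rfl h2
  hK := by intro e; simp
  inj := fun _ _ _ => Subsingleton.elim _ _

theorem exists_pf (s : ℕ) (hs : 2 ≤ s) (δ : ℝ) (hδ : 0 < δ) (hδ1 : δ ≤ 1) :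
    ∃ (S : Finset ℝ) (N : Pf S), S.card ≤ s ∧ S.Nonempty ∧ 0 < Fintype.card N.κ ∧
      (Fintype.card N.ι : ℝ) ≤ (s / δ) ^ (16 * Nat.log 2 s) ∧
      (1 - δ) * (((s : ℝ) - 1) * Fintype.card N.ι) ≤ 2 * Fintype.card N.κ := by
  classical
  have hs' : (2 : ℝ) ≤ s := by exact_mod_cast hs
  have hx2 : (2 : ℝ) ≤ s / δ := by
    rw [le_div_iff₀ hδ]
    nlinarith
  have hL : 1 ≤ Nat.log 2 s := Nat.log_pos (by norm_num) hs
  by_cases hs2 : s = 2
  · subst hs2
    refine ⟨{0, 1}, pfBase, Finset.card_le_two, by simp, ?_, ?_, ?_⟩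
    · show 0 < Fintype.card Unit; simp
    · show ((Fintype.card Bool : ℕ) : ℝ) ≤ _
      rw [Fintype.card_bool]
      have h1 : (2 : ℝ) ≤ (2 : ℕ) / δ := by exact_mod_cast hx2
      have h2 : ((2 : ℕ) / δ) ^ 1 ≤ ((2 : ℕ) / δ) ^ (16 * Nat.log 2 2) :=
        pow_le_pow_right₀ (by linarith) (by omega)
      push_cast at h1 h2 ⊢
      linarith
    · show (1 - δ) * ((((2 : ℕ) : ℝ) - 1) * ((Fintype.card Bool : ℕ) : ℝ)) ≤
        2 * ((Fintype.card Unit : ℕ) : ℝ)
      rw [Fintype.card_bool, Fintype.card_unit]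
      push_cast
      linarith
  have hs3 : 3 ≤ s := by omega
  set t := Nat.log 2 (s - 1) with ht
  have ht1 : 1 ≤ t := Nat.log_pos (by norm_num) (by omega)
  have htL : t ≤ Nat.log 2 s := Nat.log_mono_right (by omega)
  have h2t : 2 ^ t ≤ s - 1 := Nat.pow_log_le_self 2 (by omega)
  have h2t' : s - 1 < 2 ^ (t + 1) := Nat.lt_pow_succ_log_self (by norm_num) _
  obtain ⟨a, ha⟩ : ∃ a : ℕ, a = ⌈(2 : ℝ) ^ t / δ⌉₊ := ⟨_, rfl⟩
  have h2t0 : (1 : ℝ) ≤ 2 ^ t := one_le_pow₀ (by norm_num)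
  have ha1 : (2 : ℝ) ^ t / δ ≤ a := by rw [ha]; exact Nat.le_ceil _
  have h2d : (1 : ℝ) ≤ 2 ^ t / δ := by
    rw [le_div_iff₀ hδ]; linarith
  have ha2 : (a : ℝ) ≤ 2 * (2 ^ t / δ) := by
    have h1 := (Nat.ceil_lt_add_one (by linarith : (0 : ℝ) ≤ 2 ^ t / δ)).le
    rw [← ha] at h1
    linarith
  have ha3 : (1 : ℝ) ≤ a := h2d.trans ha1
  have ha4 : 1 ≤ a := by exact_mod_cast ha3
  have ha5 : (2 : ℝ) ^ t ≤ δ * a := by
    rw [div_le_iff₀ hδ] at ha1
    linarith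
  obtain ⟨N, hι, hκ, -⟩ := partC_iter a ha4 t t 0 (by omega) ht1
  have hNκ : Fintype.card N.κ = 2 ^ t * a ^ t := by rw [hκ, mul_pow]
  set m := 2 ^ t * a ^ t with hm
  obtain ⟨b, hb⟩ : ∃ b : ℕ, b = ⌈3 * ((m : ℝ) + 1) ^ 2 / δ⌉₊ := ⟨_, rfl⟩
  have hm0 : (0 : ℝ) ≤ m := Nat.cast_nonneg _
  have hbd : (1 : ℝ) ≤ 3 * ((m : ℝ) + 1) ^ 2 / δ := by
    rw [le_div_iff₀ hδ]; nlinarith
  have hb1 : 3 * ((m : ℝ) + 1) ^ 2 / δ ≤ b := by rw [hb]; exact Nat.le_ceil _
  have hb2 : (b : ℝ) ≤ 2 * (3 * ((m : ℝ) + 1) ^ 2 / δ) := by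
    have h1 := (Nat.ceil_lt_add_one (by linarith : (0 : ℝ) ≤ 3 * ((m : ℝ) + 1) ^ 2 / δ)).le
    rw [← hb] at h1
    linarith
  have hb3 : (1 : ℝ) ≤ b := hbd.trans hb1
  have hb4 : 1 ≤ b := by exact_mod_cast hb3
  have hb5 : 3 * ((m : ℝ) + 1) ^ 2 ≤ δ * b := by
    rw [div_le_iff₀ hδ] at hb1
    linarith
  have hN2 : ∃ N2 : NCfg 1 a (2 ^ t), Fintype.card N2.ι = 2 * a ^ t + a ^ (t - 1) * (2 ^ t - 1) ∧
      Fintype.card N2.κ = m := ⟨N, hι, hNκ⟩
  obtain ⟨N2, hι2, hκ2⟩ := hN2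
  obtain ⟨S, N', hS, hSn, hn', hm'⟩ := partial_split N2 (s - 1 - 2 ^ t)
    (by rw [pow_succ] at h2t'; omega) b hb4
  rw [hκ2] at hn' hm'
  rw [hι2] at hn'
  have hsq : 2 ^ t + (s - 1 - 2 ^ t) = s - 1 := by omega
  rw [hsq] at hm'
  -- number of vertices
  have hm2 : b * ((s - 1) * a ^ t) ≤ Fintype.card N'.κ := by
    have h1 : 2 ^ t * (b * ((s - 1) * a ^ t)) ≤ 2 ^ t * Fintype.card N'.κ := by
      calc 2 ^ t * (b * ((s - 1) * a ^ t)) = b * ((s - 1) * m) := by rw [hm]; ring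
        _ ≤ _ := hm'
    exact Nat.le_of_mul_le_mul_left h1 (by positivity)
  have hm3 : (b : ℝ) * (((s : ℝ) - 1) * (a : ℝ) ^ t) ≤ Fintype.card N'.κ := by
    have h1 : ((b * ((s - 1) * a ^ t) : ℕ) : ℝ) ≤ Fintype.card N'.κ := by exact_mod_cast hm2
    have h2 : ((s - 1 : ℕ) : ℝ) = (s : ℝ) - 1 := by
      rw [Nat.cast_sub (by omega)]; simp
    push_cast at h1
    rw [h2] at h1
    exact h1
  have hapos : (0 : ℝ) < (a : ℝ) ^ t := by positivity
  have hat : (a : ℝ) ^ (t - 1) * a = (a : ℝ) ^ t := by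
    rw [← pow_succ]; congr 1; omega
  -- number of lines
  have hn2 : (Fintype.card N'.ι : ℝ) ≤ b * (2 * (a : ℝ) ^ t + (a : ℝ) ^ (t - 1) * 2 ^ t) +
      3 * ((m : ℝ) + 1) ^ 2 := by
    have h1 : Fintype.card N'.ι ≤ b * (2 * a ^ t + a ^ (t - 1) * 2 ^ t) + 3 * (m + 1) ^ 2 := by
      refine hn'.trans ?_
      refine Nat.add_le_add_right (Nat.mul_le_mul_left _ (Nat.add_le_add_left ?_ _)) _
      exact Nat.mul_le_mul_left _ (Nat.sub_le _ _)
    exact_mod_cast h1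
  have hq1 : (a : ℝ) ^ (t - 1) * 2 ^ t ≤ δ * (a : ℝ) ^ t := by
    calc (a : ℝ) ^ (t - 1) * 2 ^ t ≤ (a : ℝ) ^ (t - 1) * (δ * a) :=
          mul_le_mul_of_nonneg_left ha5 (by positivity)
      _ = δ * (a : ℝ) ^ t := by rw [← hat]; ring
  have hq2 : 3 * ((m : ℝ) + 1) ^ 2 ≤ δ * b * (a : ℝ) ^ t := by
    have h1 : (1 : ℝ) ≤ (a : ℝ) ^ t := one_le_pow₀ ha3
    have h2 : 0 ≤ δ * b := by positivity
    nlinarith
  have hn3 : (Fintype.card N'.ι : ℝ) ≤ 2 * (1 + δ) * (b * (a : ℝ) ^ t) := by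
    have h1 := mul_le_mul_of_nonneg_left hq1 (by linarith : (0 : ℝ) ≤ b)
    nlinarith
  refine ⟨S, N', ?_, hSn, ?_, ?_, ?_⟩
  · omega
  · refine lt_of_lt_of_le ?_ hm2
    have : 0 < a ^ t := by positivity
    have h3 : 0 < s - 1 := by omega
    positivity
  · -- size
    set x := (s : ℝ) / δ with hx
    have hx0 : 0 < x := by linarith
    have h2s : (2 : ℝ) ^ t ≤ s := by
      have : 2 ^ t ≤ s := by omega
      exact_mod_cast this
    have h2x : (2 : ℝ) ^ t / δ ≤ x := by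
      rw [hx]; gcongr
    have hax : (a : ℝ) ≤ x ^ 2 := by nlinarith
    have hat2 : (a : ℝ) ^ t ≤ x ^ (2 * t) := by
      rw [pow_mul]
      exact pow_le_pow_left₀ (by positivity) hax t
    have h2x' : (2 : ℝ) ^ t ≤ x := by
      have : (2 : ℝ) ^ t ≤ 2 ^ t / δ := by
        rw [le_div_iff₀ hδ]; nlinarith
      linarith
    have hm4 : (m : ℝ) ≤ x ^ (2 * t + 1) := by
      rw [hm]; push_cast
      rw [pow_succ, mul_comm]
      exact mul_le_mul hat2 h2x' (by positivity) (by positivity)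
    have hx1 : (1 : ℝ) ≤ x ^ (2 * t + 1) := one_le_pow₀ (by linarith)
    have hm5 : ((m : ℝ) + 1) ^ 2 ≤ 4 * x ^ (4 * t + 2) := by
      have h1 : (m : ℝ) + 1 ≤ 2 * x ^ (2 * t + 1) := by linarith
      have h2 := pow_le_pow_left₀ (by positivity) h1 2
      have h3 : (2 * x ^ (2 * t + 1)) ^ 2 = 4 * x ^ (4 * t + 2) := by ring
      linarith
    have hdx : 1 / δ ≤ x := by
      rw [hx]; gcongr; linarith
    have hb6 : (b : ℝ) ≤ 24 * x ^ (4 * t + 3) := by
      have h1 : 2 * (3 * ((m : ℝ) + 1) ^ 2 / δ) = 6 * ((m : ℝ) + 1) ^ 2 * (1 / δ) := by ring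
      rw [h1] at hb2
      have h2 : 6 * ((m : ℝ) + 1) ^ 2 * (1 / δ) ≤ 6 * (4 * x ^ (4 * t + 2)) * x :=
        mul_le_mul (by linarith) hdx (by positivity) (by positivity)
      have h3 : 6 * (4 * x ^ (4 * t + 2)) * x = 24 * x ^ (4 * t + 3) := by ring
      linarith
    have h5 : (Fintype.card N'.ι : ℝ) ≤ 96 * x ^ (6 * t + 3) := by
      calc (Fintype.card N'.ι : ℝ) ≤ 2 * (1 + δ) * (b * (a : ℝ) ^ t) := hn3
        _ ≤ 4 * ((24 * x ^ (4 * t + 3)) * x ^ (2 * t)) := by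
          refine mul_le_mul (by linarith) ?_ (by positivity) (by norm_num)
          exact mul_le_mul hb6 hat2 (by positivity) (by positivity)
        _ = 96 * x ^ (6 * t + 3) := by ring
    have h6 : (96 : ℝ) ≤ x ^ 7 := by
      have := pow_le_pow_left₀ (by norm_num : (0 : ℝ) ≤ 2) hx2 7
      norm_num at this
      linarith
    have h7 : 96 * x ^ (6 * t + 3) ≤ x ^ (6 * t + 10) := by
      have : x ^ (6 * t + 10) = x ^ 7 * x ^ (6 * t + 3) := by ring
      rw [this]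
      exact mul_le_mul_of_nonneg_right h6 (by positivity)
    have h8 : x ^ (6 * t + 10) ≤ x ^ (16 * Nat.log 2 s) :=
      pow_le_pow_right₀ (by linarith) (by omega)
    exact h5.trans (h7.trans h8)
  · have hs1 : (0 : ℝ) ≤ (s : ℝ) - 1 := by linarith
    have h1 : (1 - δ) * (((s : ℝ) - 1) * Fintype.card N'.ι) ≤
        (1 - δ) * (((s : ℝ) - 1) * (2 * (1 + δ) * (b * (a : ℝ) ^ t))) :=
      mul_le_mul_of_nonneg_left (mul_le_mul_of_nonneg_left hn3 hs1) (by linarith)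
    have h2 : (1 - δ) * (((s : ℝ) - 1) * (2 * (1 + δ) * (b * (a : ℝ) ^ t))) =
        (1 - δ ^ 2) * (2 * (b * (((s : ℝ) - 1) * (a : ℝ) ^ t))) := by ring
    have h3 : 0 ≤ (b : ℝ) * (((s : ℝ) - 1) * (a : ℝ) ^ t) := by positivity
    have h4 : (1 - δ ^ 2) * (2 * (b * (((s : ℝ) - 1) * (a : ℝ) ^ t))) ≤
        1 * (2 * (b * (((s : ℝ) - 1) * (a : ℝ) ^ t))) :=
      mul_le_mul_of_nonneg_right (by nlinarith [sq_nonneg δ]) (by linarith)
    linarith

end Pool.Agent.KLS
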